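import Pool.Agent.K4H50.ED.B5
import Pool.Agent.R516.Core

/-!
# Exponentially few exceptions for the primes in short intervals at dilates

There is an absolute constant `δ₀ > 0` with the following property. Let `P ≥ exp ((log X) ^ (1 - δ₀))` and let `A` be an
arbitrary set of at least `δ P` integers in `[β P, P]`. Then almost all `n`-tuples `(a_j)` of elements of `A` are such that the
real numbers `y` in `(0, X / P]` behave, with respect to the `n` intervals `(a_j y - H, a_j y)`, as if the local densities of the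
primes at these intervals were independent random variables:

* the `y` for which none of the intervals with `H = (log X) ^ 22` contains a prime have relative measure at most
  `(13 / 18) ^ n + δ`;
* the `y` for which, for SOME length `H` with `(log X) ^ 22 ≤ H ≤ X ^ (1 - ρ)`, the average of the `n` local densities differs
  from `1` by more than `τ`, have relative measure at most `C exp (- c n) + δ`, where `C` and `c > 0` depend only on `β`, `τ`.
-/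

set_option autoImplicit false

namespace Pool.Agent.Results.MP_31d0eb_nt.ExponentiallyFewExceptions

open Finset

/-- the number of primes in the open interval `(x - H, x)`, divided by its expected value `H / log x` -/
noncomputable def density (H x : ℝ) : ℝ :=
  (Set.ncard {p : ℕ | p.Prime ∧ x - H < p ∧ (p : ℝ) < x} : ℝ) * Real.log x / H

open Classical in
theorem result : ∃ δ₀ : ℝ, 0 < δ₀ ∧ ∀ (β τ : ℝ), 0 < β → 0 < τ → ∃ C c : ℝ, 0 < c ∧
    ∀ (ρ : ℝ) (n : ℕ) (δ : ℝ), 0 < ρ → 1 ≤ n → 0 < δ → ∃ X₀ : ℝ, ∀ X P : ℝ, X₀ ≤ X →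
    Real.exp (Real.log X ^ (1 - δ₀)) ≤ P → ∀ A : Finset ℕ, (∀ a ∈ A, β * P ≤ (a : ℝ) ∧ (a : ℝ) ≤ P) → δ * P ≤ A.card →
      -- all but few tuples
      (((Fintype.piFinset (fun _ : Fin n => A)).filter (fun a => ¬ (
        -- no primes at all: exponentially rare
        MeasureTheory.volume {y : ℝ | 0 < y ∧ y ≤ X / P ∧
          ∀ j, ¬ ∃ p : ℕ, p.Prime ∧ a j * y - Real.log X ^ 22 < p ∧ (p : ℝ) < a j * y} ≤
            ENNReal.ofReal (((13 / 18) ^ n + δ) * (X / P)) ∧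
        -- a wrong average density for some length: exponentially rare
        MeasureTheory.volume {y : ℝ | 0 < y ∧ y ≤ X / P ∧ ∃ H : ℝ, Real.log X ^ 22 ≤ H ∧ H ≤ X ^ (1 - ρ) ∧
          τ < |(∑ j, density H (a j * y)) / n - 1|} ≤
            ENNReal.ofReal ((C * Real.exp (-(c * n)) + δ) * (X / P))))).card : ℝ) ≤ δ * (A.card : ℝ) ^ n := by
  have hden : ∀ H x : ℝ, density H x = Pool.Agent.Y851.PT.ZH H x := fun H x => (Pool.Agent.Y851.PT.ZH_eq H x).symm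
  simp_rw [hden]
  obtain ⟨δ₀, hδ₀, hcutP⟩ := Pool.Agent.K4H50.VS.cutU
  have hU : Pool.Agent.R516.St_U := Pool.Agent.R516.winU Pool.Agent.R516.core
  refine ⟨min δ₀ (1 / 2), lt_min hδ₀ (by norm_num), fun β τ hβ hτ => ?_⟩
  obtain ⟨δm, hδm⟩ : ∃ δm, δm = min δ₀ (1 / 2) := ⟨_, rfl⟩
  have hδm1 : δm ≤ δ₀ := by rw [hδm]; exact min_le_left _ _
  have hδm2 : δm ≤ 1 / 2 := by rw [hδm]; exact min_le_right _ _
  rw [← hδm]
  obtain ⟨β₁, hβ₁⟩ : ∃ β₁, β₁ = min β 1 := ⟨_, rfl⟩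
  have hβ₁0 : 0 < β₁ := by rw [hβ₁]; exact lt_min hβ one_pos
  have hβ₁1 : β₁ ≤ β := by rw [hβ₁]; exact min_le_left _ _
  have hβ₁2 : β₁ ≤ 1 := by rw [hβ₁]; exact min_le_right _ _
  obtain ⟨τ₁, hτ₁⟩ : ∃ τ₁, τ₁ = min τ 1 := ⟨_, rfl⟩
  have hτ₁0 : 0 < τ₁ := by rw [hτ₁]; exact lt_min hτ one_pos
  have hτ₁1 : τ₁ ≤ τ := by rw [hτ₁]; exact min_le_left _ _
  have hτ₁2 : τ₁ ≤ 1 := by rw [hτ₁]; exact min_le_right _ _
  obtain ⟨C, c, hC, hc, hmain⟩ := Pool.Agent.K4H50.ED.main hU δ₀ hcutP β₁ τ₁ hβ₁0 hβ₁2 hτ₁0 hτ₁2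
  refine ⟨C, c, hc, fun ρ n δ hρ hn hδ => ?_⟩
  obtain ⟨δ₁, hδ₁⟩ : ∃ δ₁, δ₁ = min δ 1 := ⟨_, rfl⟩
  have hδ₁0 : 0 < δ₁ := by rw [hδ₁]; exact lt_min hδ one_pos
  have hδ₁1 : δ₁ ≤ δ := by rw [hδ₁]; exact min_le_left _ _
  have hδ₁2 : δ₁ ≤ 1 := by rw [hδ₁]; exact min_le_right _ _
  obtain ⟨ρ₁, hρ₁⟩ : ∃ ρ₁, ρ₁ = min ρ 1 := ⟨_, rfl⟩
  have hρ₁0 : 0 < ρ₁ := by rw [hρ₁]; exact lt_min hρ one_pos
  have hρ₁1 : ρ₁ ≤ ρ := by rw [hρ₁]; exact min_le_left _ _
  have hρ₁2 : ρ₁ ≤ 1 := by rw [hρ₁]; exact min_le_right _ _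
  have hn0 : (0 : ℝ) < n := by exact_mod_cast hn
  have hPbig : ∀ᶠ X : ℝ in Filter.atTop, 1 / β ≤ Real.exp (Real.log X ^ (1 - δm)) :=
    (Real.tendsto_exp_atTop.comp ((tendsto_rpow_atTop (show 0 < 1 - δm by linarith)).comp
      Real.tendsto_log_atTop)).eventually_ge_atTop _
  obtain ⟨X₀, hX₀⟩ := Filter.eventually_atTop.1 ((hmain ρ₁ n δ₁ hρ₁0 hρ₁2 hn hδ₁0 hδ₁2).and
    ((Filter.eventually_ge_atTop 3).and hPbig))
  refine ⟨X₀, fun X P hX hP A hA1 hA2 => ?_⟩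
  obtain ⟨h1, h3, h4⟩ := hX₀ X hX
  have hX0 : 0 < X := by linarith only [h3]
  have hX1 : 1 < X := by linarith only [h3]
  have hlog1 : 1 ≤ Real.log X := by
    rw [Real.le_log_iff_exp_le hX0]
    have := Real.exp_one_lt_d9
    linarith only [this, h3]
  have hlog : 0 < Real.log X := by linarith only [hlog1]
  have hP0 : 0 < P := lt_of_lt_of_le (Real.exp_pos _) hP
  have hXP : 0 ≤ X / P := (div_pos hX0 hP0).le
  have hρX : X ^ (1 - ρ) ≤ X ^ (1 - ρ₁) := Real.rpow_le_rpow_of_exponent_le hX1.le (by linarith only [hρ₁1])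
  -- the exponent
  obtain ⟨θ, hθ⟩ : ∃ θ, θ = Real.log P / Real.log X := ⟨_, rfl⟩
  have hXθ : X ^ θ = P := by
    rw [Real.rpow_def_of_pos hX0, hθ, mul_div_cancel₀ _ hlog.ne', Real.exp_log hP0]
  have hX1θ : X ^ (1 - θ) = X / P := by
    rw [Real.rpow_sub hX0, Real.rpow_one, hXθ]
  have hθ0 : Real.log X ^ (-δ₀) ≤ θ := by
    have g1 : Real.log X ^ (1 - δm) ≤ Real.log P := by rwa [Real.le_log_iff_exp_le hP0]
    have g2 : Real.log X ^ (-δm) * Real.log X = Real.log X ^ (1 - δm) := by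
      rw [← Real.rpow_add_one hlog.ne']
      congr 1; ring
    have g3 : Real.log X ^ (-δ₀) ≤ Real.log X ^ (-δm) := Real.rpow_le_rpow_of_exponent_le hlog1 (by linarith only [hδm1])
    rw [hθ, le_div_iff₀ hlog]
    refine le_trans (mul_le_mul_of_nonneg_right g3 hlog.le) ?_
    rw [g2]; exact g1
  have h1 := h1 θ hθ0
  rw [hXθ, hX1θ] at h1
  have hadm : Pool.Agent.K4H50.VS.AdmI δ₁ θ X A := by
    unfold Pool.Agent.K4H50.VS.AdmI
    rw [hXθ]
    refine ⟨fun a ha => ⟨?_, (hA1 a ha).2⟩, (mul_le_mul_of_nonneg_right hδ₁1 hP0.le).trans hA2⟩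
    have g1 : 1 / β ≤ P := h4.trans hP
    rw [div_le_iff₀ hβ] at g1
    have g2 : β * P ≤ a := (hA1 a ha).1
    have : (1 : ℝ) ≤ a := by linarith only [g1, g2]
    exact_mod_cast this
  have hβA : ∀ a ∈ A, β₁ * P ≤ (a : ℝ) := fun a ha => (mul_le_mul_of_nonneg_right hβ₁1 hP0.le).trans (hA1 a ha).1
  refine le_trans ?_ ((h1 A hadm hβA).trans (mul_le_mul_of_nonneg_right hδ₁1 (pow_nonneg (Nat.cast_nonneg _) n)))
  apply Nat.cast_le.2
  apply card_le_card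
  intro a ha
  rw [mem_filter] at ha ⊢
  refine ⟨ha.1, fun hcon => ha.2 ?_⟩
  obtain ⟨g1, g2⟩ := hcon
  constructor
  · refine (MeasureTheory.measure_mono ?_).trans (g1.trans (ENNReal.ofReal_le_ofReal ?_))
    · rintro y ⟨hy0, hy1, hy2⟩
      refine ⟨hy0, hy1, fun j => ?_⟩
      rw [eq_empty_iff_forall_notMem]
      intro p hp
      have hay : 0 ≤ (a j : ℝ) * y := mul_nonneg (Nat.cast_nonneg _) hy0.le
      rw [Pool.Agent.Y851.PT.mem_PH hay] at hp
      exact hy2 j ⟨p, hp⟩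
    · exact mul_le_mul_of_nonneg_right (by linarith only [hδ₁1]) hXP
  · refine (MeasureTheory.measure_mono ?_).trans (g2.trans (ENNReal.ofReal_le_ofReal ?_))
    · rintro y ⟨hy0, hy1, H, hH1, hH2, hH3⟩
      refine ⟨hy0, hy1, H, hH1, hH2.trans hρX, ?_⟩
      have e : ∑ j, Pool.Agent.Y851.PT.ZH H (a j * y) - n = ((∑ j, Pool.Agent.Y851.PT.ZH H (a j * y)) / n - 1) * n := by
        rw [sub_mul, one_mul, div_mul_cancel₀ _ hn0.ne']
      rw [e, abs_mul, abs_of_pos hn0]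
      exact mul_lt_mul_of_pos_right (lt_of_le_of_lt hτ₁1 hH3) hn0
    · exact mul_le_mul_of_nonneg_right (by linarith only [hδ₁1]) hXP

end Pool.Agent.Results.MP_31d0eb_nt.ExponentiallyFewExceptions
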