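import Pool.Agent.K4H2.OL.Comb
import Pool.Agent.K4H2.OL.Ev

/-!
# Primes in almost all short intervals, from one length at most primes

The asymptotic formula `π(n, n ^ ε) ∼ n ^ ε / log n` for almost all `n` (for every `ε > 0`) is equivalent to
a one-sided statement about ONE length at most primes: for all `ε, δ > 0`, for all but `o(π(N))` primes
`p < N` there is a length `h` in `[1, p ^ ε]` such that `[p, p + h]` contains at most `(1 + δ) h / log p`
primes. Both are equivalent to the asymptotic formula for all lengths `n ^ ε ≤ H ≤ n` simultaneously, for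
almost all `n`.
-/

set_option autoImplicit false

open Finset Filter

namespace Pool.Agent.Results.MP_31d0eb_nt.OneLengthAtMostPrimes

open Pool.Agent.H357R2.SI Pool.Agent.K4H2.OL

/-- `π(n, H) log n / H`, where `π(n, H)` is the number of primes in `(n, n + H]` -/
noncomputable def density (n : ℕ) (H : ℝ) : ℝ :=
  (((Finset.Ioc n ⌊(n : ℝ) + H⌋₊).filter Nat.Prime).card : ℝ) * Real.log n / H

/-- the number of primes in the closed interval `[p, p + h]`, divided by `h / log p` -/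
noncomputable def closedDensity (p : ℕ) (h : ℝ) : ℝ :=
  (((Finset.Icc p ⌊(p : ℝ) + h⌋₊).filter Nat.Prime).card : ℝ) * Real.log p / h

open Classical in
/-- for every `ε` in `(0, 1]`: `π(n, n ^ ε) log n / n ^ ε → 1` for almost all `n` -/
def AlmostAll : Prop := ∀ ε δ η : ℝ, 0 < ε → ε ≤ 1 → 0 < δ → 0 < η → ∀ᶠ N : ℕ in atTop,
  (((Finset.range N).filter (fun n : ℕ => δ < |density n ((n : ℝ) ^ ε) - 1|)).card : ℝ) ≤ η * N

open Classical in
/-- for every `ε > 0`: the assertion of Q1 for almost all `n`, uniformly for `n ^ ε ≤ H ≤ n` -/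
def AlmostAllUniform : Prop := ∀ ε δ η : ℝ, 0 < ε → 0 < δ → 0 < η → ∀ᶠ N : ℕ in atTop,
  (((Finset.range N).filter (fun n : ℕ =>
    ∃ H : ℝ, (n : ℝ) ^ ε ≤ H ∧ H ≤ n ∧ δ < |density n H - 1|)).card : ℝ) ≤ η * N

open Classical in
/-- for all `ε, δ > 0`: for all but `o(π(N))` of the primes `p < N` there is ONE length `h` in `[1, p ^ ε]` for
which `[p, p + h]` contains at most `(1 + δ) h / log p` primes -/
def OneLength : Prop := ∀ ε δ η : ℝ, 0 < ε → 0 < δ → 0 < η → ∀ᶠ N : ℕ in atTop,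
  (((Finset.range N).filter (fun p : ℕ => p.Prime ∧
    ∀ h : ℝ, 1 ≤ h → h ≤ (p : ℝ) ^ ε → 1 + δ < closedDensity p h)).card : ℝ) ≤ η * Nat.primeCounting N

lemma pc_sub (u k : ℕ) : (pc 0 (u + k) : ℝ) - pc 0 u = pc u (u + k) := by
  have h := pc_add (Nat.zero_le u) (Nat.le_add_right u k)
  have h' : (pc 0 u : ℝ) + pc u (u + k) = pc 0 (u + k) := by exact_mod_cast h
  linarith

open Classical in
/-- the primes at which all closed windows are too dense -/
noncomputable def badP (ε δ : ℝ) (N : ℕ) : Finset ℕ := (Finset.range N).filter (fun p : ℕ => p.Prime ∧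
    ∀ h : ℝ, 1 ≤ h → h ≤ (p : ℝ) ^ ε → 1 + δ < closedDensity p h)

open Classical in
noncomputable def badU (ε δ : ℝ) (N : ℕ) : Finset ℕ := (Finset.range N).filter (fun n : ℕ =>
    ∃ H : ℝ, (n : ℝ) ^ ε ≤ H ∧ H ≤ n ∧ δ < |density n H - 1|)

open Classical in
/-- the sufficiency for one `N` -/
lemma core {ε θ δ η : ℝ} {N : ℕ} (hε : 0 < ε) (hε1 : ε ≤ 1) (hδ : 0 < δ) (hδ1 : δ ≤ 1) (hη : 0 < η)
    (hη1 : η ≤ 1) (hθ : θ = δ * η / 1000) (hpar : Par ε θ N)
    (hQ : ((badP (ε / 2) θ (3 * N + 1)).card : ℝ) ≤ θ * Nat.primeCounting (3 * N + 1)) :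
    ((badU ε δ N).card : ℝ) ≤ η * N := by
  obtain ⟨hX, hX2, hL0, hL1, hL2, hM, hH, hP1, hP2, hP3⟩ := hpar
  have hθ0 : 0 < θ := by rw [hθ]; positivity
  have hθδ : θ ≤ δ / 1000 := by
    have h1 := mul_le_mul_of_nonneg_left hη1 hδ.le
    rw [hθ]; linarith only [h1]
  have hθη : θ ≤ η / 1000 := by
    have h1 := mul_le_mul_of_nonneg_right hδ1 hη.le
    rw [hθ]; linarith only [h1]
  have hθ1 : θ ≤ 1 / 1000 := by linarith only [hθδ, hδ1]
  obtain ⟨X, hXdef⟩ : ∃ X : ℕ, X = ⌊θ * (N : ℝ)⌋₊ := ⟨_, rfl⟩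
  obtain ⟨L, hL⟩ : ∃ L : ℝ, L = Real.log N := ⟨_, rfl⟩
  rw [← hXdef] at hX hX2 hL1 hM hH hP2
  rw [← hL] at hL0 hL1 hL2
  have hN0 : (0 : ℝ) < N := by
    rcases Nat.eq_zero_or_pos N with h | h
    · subst h
      simp at hL
      linarith
    · exact_mod_cast h
  have hXN : (X : ℝ) ≤ θ * N := by rw [hXdef]; exact Nat.floor_le (by positivity)
  have hXN' : (X : ℝ) ≤ N := by
    have h1 := mul_le_mul_of_nonneg_right (show θ ≤ 1 by linarith only [hθ1]) hN0.le
    linarith only [h1, hXN]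
  have hXNn : X ≤ N := by exact_mod_cast hXN'
  have hX2r : (3 : ℝ) ≤ X := by exact_mod_cast hX2
  obtain ⟨M, hMdef⟩ : ∃ M : ℕ, M = ⌊(3 * (N : ℝ)) ^ (ε / 2)⌋₊ + 1 := ⟨_, rfl⟩
  obtain ⟨H0, hH0def⟩ : ∃ H0 : ℕ, H0 = ⌊(X : ℝ) ^ ε⌋₊ := ⟨_, rfl⟩
  have hpow0 : 0 ≤ (3 * (N : ℝ)) ^ (ε / 2) := by positivity
  have hXε0 : 0 ≤ (X : ℝ) ^ ε := by positivity
  have hMr : (M : ℝ) ≤ (3 * (N : ℝ)) ^ (ε / 2) + 1 := by
    rw [hMdef]
    push_cast
    have := Nat.floor_le hpow0
    linarith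
  have hH0r : (X : ℝ) ^ ε - 1 ≤ H0 := by
    rw [hH0def]
    have := Nat.lt_floor_add_one ((X : ℝ) ^ ε)
    linarith
  have hH0le : (H0 : ℝ) ≤ N := by
    calc (H0 : ℝ) ≤ (X : ℝ) ^ ε := by rw [hH0def]; exact Nat.floor_le hXε0
      _ ≤ (X : ℝ) ^ (1 : ℝ) := Real.rpow_le_rpow_of_exponent_le (by linarith) hε1
      _ = X := Real.rpow_one _
      _ ≤ N := hXN'
  obtain ⟨c, hc⟩ : ∃ c : ℝ, c = 3 * θ := ⟨_, rfl⟩
  obtain ⟨R, hR⟩ : ∃ R : ℝ, R = (1 + c) * M := ⟨_, rfl⟩
  have hc0 : 0 ≤ c := by rw [hc]; positivity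
  have hR0 : 0 ≤ R := by rw [hR]; positivity
  have hRH : R ≤ θ / 10 * H0 := by
    have h1 : R ≤ 2 * M := by
      rw [hR]
      apply mul_le_mul_of_nonneg_right _ (Nat.cast_nonneg M)
      rw [hc]; linarith
    have h2 : θ / 10 * ((X : ℝ) ^ ε - 1) ≤ θ / 10 * H0 := mul_le_mul_of_nonneg_left hH0r (by positivity)
    linarith
  have hH0pos : 1 ≤ H0 := by
    by_contra h
    have h0 : H0 = 0 := by omega
    rw [h0] at hH0r
    have h1 : θ / 10 * ((X : ℝ) ^ ε - 1) ≤ 0 := by
      apply mul_nonpos_of_nonneg_of_nonpos (by positivity)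
      simpa using hH0r
    linarith
  have hH0p : (0 : ℝ) < H0 := by exact_mod_cast hH0pos
  obtain ⟨Q, hQdef⟩ : ∃ Q : Finset ℕ, Q = badP (ε / 2) θ (3 * N + 1) := ⟨_, rfl⟩
  rw [← hQdef] at hQ
  obtain ⟨G, hG⟩ : ∃ G : ℕ → ℝ, G = fun v => L * ∑ s ∈ range (v + 1), (if s ∈ Q then (1 : ℝ) else 0) := ⟨_, rfl⟩
  obtain ⟨S, hS⟩ : ∃ S : ℕ → ℝ, S = fun v => L * (pc 0 v : ℝ) - v := ⟨_, rfl⟩
  have hGsucc : ∀ v, G (v + 1) - G v = L * (if v + 1 ∈ Q then (1 : ℝ) else 0) := by
    intro v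
    rw [hG]
    simp only
    rw [sum_range_succ _ (v + 1)]
    ring
  have hGmono : Monotone G := by
    apply monotone_nat_of_le_succ
    intro v
    have h1 := hGsucc v
    have h2 : 0 ≤ L * (if v + 1 ∈ Q then (1 : ℝ) else 0) := by
      split_ifs <;> simp
      linarith
    linarith
  have hGnn : ∀ v, 0 ≤ G v := by
    intro v
    rw [hG]
    apply mul_nonneg (by linarith)
    apply sum_nonneg
    intro s _
    split_ifs <;> simp
  have hGle : ∀ v, G v ≤ L * Q.card := by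
    intro v
    rw [hG]
    apply mul_le_mul_of_nonneg_left _ (by linarith)
    rw [sum_boole]
    apply Nat.cast_le.2
    apply card_le_card
    intro s hs
    exact (mem_filter.1 hs).2
  have hSdiff : ∀ u k : ℕ, S (u + k) - S u = L * (pc u (u + k) : ℝ) - k := by
    intro u k
    rw [hS, ← pc_sub]
    push_cast
    ring
  have hSstep : ∀ v : ℕ, -1 ≤ S (v + 1) - S v := by
    intro v
    rw [hSdiff]
    have : 0 ≤ L * (pc v (v + 1) : ℝ) := mul_nonneg (by linarith) (Nat.cast_nonneg _)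
    push_cast
    linarith
  have hlogX : 0 < Real.log X := Real.log_pos (by linarith)
  have hblocks : ∀ u : ℕ, X ≤ u → u < 3 * N → ∃ k : ℕ, 1 ≤ k ∧ k ≤ M ∧
      S (u + k) - S u ≤ c * k + (G (u + 1) - G u) := by
    intro u hu1 hu2
    have hM1 : 1 ≤ M := by rw [hMdef]; omega
    by_cases hp : (u + 1).Prime
    · by_cases hq : u + 1 ∈ Q
      · refine ⟨1, le_rfl, hM1, ?_⟩
        rw [hSdiff, hGsucc, if_pos hq, pc_succ, if_pos hp]
        push_cast
        linarith
      · have hcon : ¬ ((u + 1).Prime ∧ ∀ h : ℝ, 1 ≤ h → h ≤ ((u + 1 : ℕ) : ℝ) ^ (ε / 2) →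
            1 + θ < closedDensity (u + 1) h) := by
          intro hcon
          apply hq
          rw [hQdef]
          unfold badP
          rw [mem_filter, mem_range]
          exact ⟨by omega, hcon⟩
        push Not at hcon
        obtain ⟨h, hh1, hh2, hh3⟩ := hcon hp
        refine ⟨⌊h⌋₊ + 1, by omega, ?_, ?_⟩
        · rw [hMdef]
          apply Nat.add_le_add_right
          apply Nat.floor_le_floor
          refine hh2.trans ?_
          apply Real.rpow_le_rpow (Nat.cast_nonneg _) _ (by positivity)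
          have : u + 1 ≤ 3 * N := hu2
          exact_mod_cast this
        · rw [hSdiff, hGsucc, if_neg hq]
          have hfl : ⌊((u + 1 : ℕ) : ℝ) + h⌋₊ = u + (⌊h⌋₊ + 1) := by
            rw [add_comm, Nat.floor_add_natCast (by linarith)]
            omega
          have hset : (Icc (u + 1) ⌊((u + 1 : ℕ) : ℝ) + h⌋₊).filter Nat.Prime =
              (Ioc u (u + (⌊h⌋₊ + 1))).filter Nat.Prime := by
            rw [hfl]
            ext m
            simp only [mem_filter, mem_Icc, mem_Ioc]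
            constructor
            · rintro ⟨⟨a1, a2⟩, a3⟩
              exact ⟨⟨by omega, a2⟩, a3⟩
            · rintro ⟨⟨a1, a2⟩, a3⟩
              exact ⟨⟨by omega, a2⟩, a3⟩
          unfold closedDensity at hh3
          rw [hset, div_le_iff₀ (by linarith)] at hh3
          have hq1 : (((Ioc u (u + (⌊h⌋₊ + 1))).filter Nat.Prime).card : ℝ) = pc u (u + (⌊h⌋₊ + 1)) := rfl
          rw [hq1] at hh3
          obtain ⟨q, hqd⟩ : ∃ q : ℝ, q = pc u (u + (⌊h⌋₊ + 1)) := ⟨_, rfl⟩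
          rw [← hqd] at hh3 ⊢
          have hq0 : 0 ≤ q := by rw [hqd]; positivity
          have hlt : h < ((⌊h⌋₊ + 1 : ℕ) : ℝ) := by push_cast; exact Nat.lt_floor_add_one h
          obtain ⟨k, hk⟩ : ∃ k : ℝ, k = ((⌊h⌋₊ + 1 : ℕ) : ℝ) := ⟨_, rfl⟩
          rw [← hk] at hlt ⊢
          have hlogt : (1 - θ) * L ≤ Real.log ((u + 1 : ℕ) : ℝ) := by
            refine hL1.trans (Real.log_le_log (by linarith) ?_)
            have : X ≤ u + 1 := by omega
            exact_mod_cast this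
          have h1 : q * ((1 - θ) * L) ≤ (1 + θ) * k := by
            calc q * ((1 - θ) * L) ≤ q * Real.log ((u + 1 : ℕ) : ℝ) := mul_le_mul_of_nonneg_left hlogt hq0
              _ ≤ (1 + θ) * h := hh3
              _ ≤ (1 + θ) * k := mul_le_mul_of_nonneg_left hlt.le (by linarith)
          have h2 : (1 - θ) * (L * q) ≤ (1 - θ) * ((1 + 3 * θ) * k) := by
            have e : (1 + θ) * k ≤ (1 - θ) * ((1 + 3 * θ) * k) := by
              have : (1 - θ) * ((1 + 3 * θ) * k) - (1 + θ) * k = θ * (1 - 3 * θ) * k := by ring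
              have : 0 ≤ θ * (1 - 3 * θ) * k := by
                apply mul_nonneg (mul_nonneg hθ0.le (by linarith)) (by linarith)
              linarith
            calc (1 - θ) * (L * q) = q * ((1 - θ) * L) := by ring
              _ ≤ (1 + θ) * k := h1
              _ ≤ _ := e
          have h3 := le_of_mul_le_mul_left h2 (by linarith only [hθ1])
          rw [hc]
          linarith
    · refine ⟨1, le_rfl, hM1, ?_⟩
      rw [hSdiff, pc_succ, if_neg hp]
      have := hGmono (Nat.le_succ u)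
      simp only [Nat.cast_zero, mul_zero, Nat.cast_one]
      linarith only [this, hc0]
  have htile := tile_upper S G c M (3 * N) X hc0 hGmono hSstep hblocks
  rw [← hR] at htile
  -- the total
  have hLpos : 0 < L := by linarith
  have hlog3 : 0 < Real.log (3 * N : ℝ) := Real.log_pos (by linarith)
  have hlog3le : Real.log (3 * N : ℝ) ≤ (1 + θ) * L := by
    refine le_trans (Real.log_le_log (by positivity) (by linarith)) hL2
  have hLlog3 : L ≤ Real.log (3 * N + 1 : ℝ) := by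
    rw [hL]
    exact Real.log_le_log hN0 (by linarith)
  have hPV : (1 - 2 * θ) * (3 * N) ≤ L * (pc 0 (3 * N) : ℝ) := by
    rw [pc_zero]
    rw [div_le_iff₀ hlog3] at hP1
    have h1 : (1 - θ) * (3 * N) ≤ (1 + θ) * (L * (Nat.primeCounting (3 * N) : ℝ)) := by
      calc (1 - θ) * (3 * N) ≤ (Nat.primeCounting (3 * N) : ℝ) * Real.log (3 * N : ℝ) := hP1
        _ ≤ (Nat.primeCounting (3 * N) : ℝ) * ((1 + θ) * L) :=
          mul_le_mul_of_nonneg_left hlog3le (Nat.cast_nonneg _)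
        _ = _ := by ring
    have h2 : (1 + θ) * ((1 - 2 * θ) * (3 * N)) ≤ (1 - θ) * (3 * N) := by
      have : (1 - θ) * (3 * N) - (1 + θ) * ((1 - 2 * θ) * (3 * N)) = 6 * θ ^ 2 * (N : ℝ) := by ring
      have : 0 ≤ 6 * θ ^ 2 * (N : ℝ) := by positivity
      linarith
    exact le_of_mul_le_mul_left (h2.trans h1) (by linarith)
  have hPX : L * (pc 0 X : ℝ) ≤ (1 + 3 * θ) * X := by
    rw [pc_zero]
    rw [le_div_iff₀ hlogX] at hP2
    have h1 : (1 - θ) * (L * (Nat.primeCounting X : ℝ)) ≤ (1 + θ) * X := by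
      calc (1 - θ) * (L * (Nat.primeCounting X : ℝ)) = (Nat.primeCounting X : ℝ) * ((1 - θ) * L) := by ring
        _ ≤ (Nat.primeCounting X : ℝ) * Real.log X := mul_le_mul_of_nonneg_left hL1 (Nat.cast_nonneg _)
        _ ≤ _ := hP2
    have h2 : (1 + θ) * (X : ℝ) ≤ (1 - θ) * ((1 + 3 * θ) * X) := by
      have : (1 - θ) * ((1 + 3 * θ) * X) - (1 + θ) * (X : ℝ) = θ * (1 - 3 * θ) * X := by ring
      have : 0 ≤ θ * (1 - 3 * θ) * (X : ℝ) := by
        apply mul_nonneg (mul_nonneg hθ0.le (by linarith)) (by linarith)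
      linarith
    exact le_of_mul_le_mul_left (h1.trans h2) (by linarith)
  have htot : S X - S (3 * N) ≤ 9 * θ * N := by
    rw [hS]
    push_cast
    have h1 := mul_le_mul_of_nonneg_left hXN' hθ0.le
    linarith only [h1, hPV, hPX]
  have hGtot : G (3 * N) - G X ≤ 8 * θ * N := by
    have h1 := hGle (3 * N)
    have h2 := hGnn X
    have h3 : L * (Q.card : ℝ) ≤ 8 * θ * N := by
      have h4 : 0 < Real.log (3 * N + 1 : ℝ) := by linarith
      rw [le_div_iff₀ h4] at hP3
      calc L * (Q.card : ℝ) ≤ L * (θ * Nat.primeCounting (3 * N + 1)) :=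
            mul_le_mul_of_nonneg_left hQ hLpos.le
        _ = θ * (L * Nat.primeCounting (3 * N + 1)) := by ring
        _ ≤ θ * (Real.log (3 * N + 1 : ℝ) * Nat.primeCounting (3 * N + 1)) := by gcongr
        _ ≤ θ * (2 * (3 * N + 1)) := by
          apply mul_le_mul_of_nonneg_left _ hθ0.le
          linarith only [hP3]
        _ ≤ 8 * θ * N := by
          have hN1 : (1 : ℝ) ≤ N := by linarith only [hXN', hX2r]
          have h5 := mul_le_mul_of_nonneg_left hN1 hθ0.le
          linarith only [h5]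
    linarith
  obtain ⟨lam, hlam⟩ : ∃ lam : ℝ, lam = δ / 4 := ⟨_, rfl⟩
  have hlam0 : 0 < lam := by rw [hlam]; positivity
  obtain ⟨B1, hB1⟩ : ∃ B1 : Finset ℕ, B1 = (range N).filter (fun n => X ≤ n ∧ ∃ H : ℕ, H0 ≤ H ∧ n + H ≤ 3 * N ∧
    lam * H ≤ (-S (n + H)) - (-S n)) := ⟨_, rfl⟩
  obtain ⟨B2, hB2⟩ : ∃ B2 : Finset ℕ, B2 = (range N).filter (fun n => X ≤ n ∧ ∃ H : ℕ, 1 ≤ H ∧ n + H ≤ 3 * N ∧
    lam * H ≤ G (n + H) - G n) := ⟨_, rfl⟩
  have hXV : X ≤ 3 * N := by omega
  have hb1 : lam * (B1.card : ℝ) ≤ 28 * θ * N := by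
    have h1 := cover (fun v => -S v) G c R lam H0 (3 * N) X hc0 hR0 hlam0.le hH0pos hGmono (by
      intro u v h1 h2 h3
      have := htile u v h1 h2 h3
      linarith) B1 (by
      intro n hn
      rw [hB1, mem_filter] at hn
      obtain ⟨-, -, H, g1, g2, g3⟩ := hn
      exact ⟨H, g1, g2, g3⟩) X le_rfl hXV
    have h2 : B1.filter (fun n => X ≤ n) = B1 := by
      apply filter_true_of_mem
      intro n hn
      rw [hB1, mem_filter] at hn
      exact hn.2.1
    rw [h2] at h1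
    have h3 : R * ((((3 * N : ℕ) : ℝ) - X) / H0 + 1) ≤ θ * N := by
      have h4 : (((3 * N : ℕ) : ℝ) - X) / H0 + 1 ≤ (4 * N) / H0 := by
        rw [div_add_one hH0p.ne', div_le_div_iff_of_pos_right hH0p]
        push_cast
        linarith
      calc R * ((((3 * N : ℕ) : ℝ) - X) / H0 + 1) ≤ R * ((4 * N) / H0) := mul_le_mul_of_nonneg_left h4 hR0
        _ ≤ (θ / 10 * H0) * ((4 * N) / H0) := mul_le_mul_of_nonneg_right hRH (by positivity)
        _ = θ * N * (4 / 10) := by field_simp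
        _ ≤ θ * N := by
          have : 0 ≤ θ * N := by positivity
          linarith
    have h5 : c * (((3 * N : ℕ) : ℝ) - X) ≤ 9 * θ * N := by
      rw [hc]
      push_cast
      have h8 : 0 ≤ θ * (X : ℝ) := by positivity
      linarith only [h8]
    have h6 : (fun v => -S v) (3 * N) - (fun v => -S v) X = S X - S (3 * N) := by
      simp only
      ring
    rw [h6] at h1
    have h7 : 0 ≤ θ * N := by positivity
    linarith
  have hb2 : lam * (B2.card : ℝ) ≤ 8 * θ * N := by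
    have h1 := cover G (fun _ => 0) 0 0 lam 1 (3 * N) X le_rfl le_rfl hlam0.le le_rfl monotone_const (by
      intro u v h1 h2 h3
      have := hGmono h2
      simp only [zero_mul, sub_self, add_zero, neg_zero]
      linarith) B2 (by
      intro n hn
      rw [hB2, mem_filter] at hn
      obtain ⟨-, -, H, g1, g2, g3⟩ := hn
      exact ⟨H, g1, g2, g3⟩) X le_rfl hXV
    have h2 : B2.filter (fun n => X ≤ n) = B2 := by
      apply filter_true_of_mem
      intro n hn
      rw [hB2, mem_filter] at hn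
      exact hn.2.1
    rw [h2] at h1
    simp only [zero_mul, sub_self, add_zero] at h1
    linarith
  have hsub : badU ε δ N ⊆ range X ∪ (B1 ∪ B2) := by
    intro n hn
    unfold badU at hn
    rw [mem_filter, mem_range] at hn
    obtain ⟨hnN, H, hH1, hH2, hH3⟩ := hn
    rw [mem_union, mem_union, mem_range]
    by_contra hcon
    push Not at hcon
    obtain ⟨hXn, hn1, hn2⟩ := hcon
    have hXnr : (X : ℝ) ≤ n := by exact_mod_cast hXn
    have hnr : (0 : ℝ) < n := by linarith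
    have hXH : (X : ℝ) ^ ε ≤ H := (Real.rpow_le_rpow (by linarith) hXnr hε.le).trans hH1
    have hHθ : 1 / θ ≤ H := hH.trans hXH
    have hH0' : 0 < H := lt_of_lt_of_le (by positivity) hHθ
    obtain ⟨K, hK⟩ : ∃ K : ℕ, K = ⌊H⌋₊ := ⟨_, rfl⟩
    have hKH : (K : ℝ) ≤ H := by rw [hK]; exact Nat.floor_le hH0'.le
    have hKH2 : H - 1 ≤ K := by
      rw [hK]
      have := Nat.lt_floor_add_one H
      linarith
    have hKH0 : H0 ≤ K := by
      rw [hH0def, hK]
      exact Nat.floor_le_floor hXH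
    have hKn : n + K ≤ 3 * N := by
      have h1 : (K : ℝ) ≤ n := hKH.trans hH2
      have h2 : K ≤ n := by exact_mod_cast h1
      omega
    have hKr : (1 : ℝ) ≤ K := by exact_mod_cast hH0pos.trans hKH0
    have hθH : 1 ≤ θ * H := by
      rw [div_le_iff₀ hθ0] at hHθ
      linarith
    have hKH3 : (1 - θ) * H ≤ K := by linarith
    have f1 : -(lam * K) < S (n + K) - S n := by
      by_contra hc1
      apply hn1
      rw [hB1, mem_filter, mem_range]
      refine ⟨hnN, hXn, K, hKH0, hKn, ?_⟩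
      linarith [not_lt.1 hc1]
    have f2 : G (n + K) - G n < lam * K := by
      by_contra hc1
      apply hn2
      rw [hB2, mem_filter, mem_range]
      exact ⟨hnN, hXn, K, hH0pos.trans hKH0, hKn, not_lt.1 hc1⟩
    have f3 := htile n (n + K) hXn (Nat.le_add_right _ _) hKn
    have f4 : R ≤ θ / 10 * K := by
      refine hRH.trans (mul_le_mul_of_nonneg_left ?_ (by positivity))
      exact_mod_cast hKH0
    rw [hSdiff] at f1 f3
    obtain ⟨q, hq⟩ : ∃ q : ℝ, q = pc n (n + K) := ⟨_, rfl⟩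
    rw [← hq] at f1 f3
    have hq0 : 0 ≤ q := by rw [hq]; positivity
    have hdens : density n H = q * Real.log n / H := by
      unfold density
      rw [hq]
      have : ⌊(n : ℝ) + H⌋₊ = n + K := by
        rw [add_comm, Nat.floor_add_natCast hH0'.le, hK, add_comm]
      rw [this]
      rfl
    have hlogn1 : Real.log n ≤ L := by
      rw [hL]
      apply Real.log_le_log hnr
      exact_mod_cast hnN.le
    have hlogn2 : (1 - θ) * L ≤ Real.log n := hL1.trans (Real.log_le_log (by linarith) hXnr)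
    have hup : density n H ≤ 1 + δ := by
      rw [hdens, div_le_iff₀ hH0']
      push_cast at f3
      have g1 : L * q ≤ (1 + c + lam + θ / 10) * K := by
        have : c * ((n : ℝ) + K - n) = c * K := by ring
        rw [this] at f3
        linarith only [f3, f2, f4]
      calc q * Real.log n ≤ q * L := mul_le_mul_of_nonneg_left hlogn1 hq0
        _ = L * q := by ring
        _ ≤ (1 + c + lam + θ / 10) * K := g1
        _ ≤ (1 + c + lam + θ / 10) * H := mul_le_mul_of_nonneg_left hKH (by positivity)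
        _ ≤ (1 + δ) * H := by
          apply mul_le_mul_of_nonneg_right _ hH0'.le
          rw [hc, hlam]
          linarith
    have hlo : 1 - δ ≤ density n H := by
      rw [hdens, le_div_iff₀ hH0']
      have g1 : (1 - lam) * K ≤ L * q := by linarith
      have hlam1 : 0 ≤ 1 - lam := by rw [hlam]; linarith
      calc (1 - δ) * H ≤ (1 - θ) * ((1 - lam) * ((1 - θ) * H)) := by
            have e : (1 - θ) * ((1 - lam) * ((1 - θ) * H)) - (1 - δ) * H =
                ((1 - θ) ^ 2 * (1 - lam) - (1 - δ)) * H := by ring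
            have e2 : 0 ≤ (1 - θ) ^ 2 * (1 - lam) - (1 - δ) := by
              rw [hlam]
              have g2 : 1 - 2 * θ ≤ (1 - θ) ^ 2 := by
                have := sq_nonneg θ
                have e3 : (1 - θ) ^ 2 = 1 - 2 * θ + θ ^ 2 := by ring
                linarith only [this, e3]
              have g3 : (1 - 2 * θ) * (1 - δ / 4) ≤ (1 - θ) ^ 2 * (1 - δ / 4) :=
                mul_le_mul_of_nonneg_right g2 (by linarith only [hδ1])
              have g4 : 0 ≤ θ * δ := by positivity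
              have e4 : (1 - 2 * θ) * (1 - δ / 4) = 1 - 2 * θ - δ / 4 + θ * δ / 2 := by ring
              linarith only [g3, g4, e4, hθδ, hδ]
            have := mul_nonneg e2 hH0'.le
            linarith
        _ ≤ (1 - θ) * ((1 - lam) * K) := by
            apply mul_le_mul_of_nonneg_left _ (by linarith)
            exact mul_le_mul_of_nonneg_left hKH3 hlam1
        _ ≤ (1 - θ) * (L * q) := mul_le_mul_of_nonneg_left g1 (by linarith)
        _ = q * ((1 - θ) * L) := by ring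
        _ ≤ q * Real.log n := mul_le_mul_of_nonneg_left hlogn2 hq0
    have : |density n H - 1| ≤ δ := abs_le.2 ⟨by linarith, by linarith⟩
    linarith
  have hcard := (card_le_card hsub).trans ((card_union_le _ _).trans (Nat.add_le_add_left (card_union_le _ _) _))
  rw [card_range] at hcard
  have hcard' : ((badU ε δ N).card : ℝ) ≤ X + (B1.card + B2.card) := by exact_mod_cast hcard
  rw [hlam] at hb1 hb2
  have h1 : (B1.card : ℝ) ≤ 112 / 1000 * (η * N) := by
    have e : δ / 4 * (B1.card : ℝ) ≤ δ / 4 * (112 / 1000 * (η * N)) := by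
      refine hb1.trans (le_of_eq ?_)
      rw [hθ]
      ring
    exact le_of_mul_le_mul_left e (by positivity)
  have h2 : (B2.card : ℝ) ≤ 32 / 1000 * (η * N) := by
    have e : δ / 4 * (B2.card : ℝ) ≤ δ / 4 * (32 / 1000 * (η * N)) := by
      refine hb2.trans (le_of_eq ?_)
      rw [hθ]
      ring
    exact le_of_mul_le_mul_left e (by positivity)
  have h3 : θ * N ≤ η / 1000 * N := mul_le_mul_of_nonneg_right hθη hN0.le
  have h4 : 0 ≤ η * N := by positivity
  linarith

/-- just before a bad prime the density of the integers is large -/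
lemma claim {ε δ : ℝ} {p n r X : ℕ} (hε : 0 < ε) (hδ : 0 < δ) (hδ1 : δ ≤ 1) (hX1 : 3 ≤ X) (hXn : X ≤ n)
    (hnp : n < p) (hpr : p ≤ n + r) (hp2 : p ≤ 2 * n) (hrX : (r : ℝ) ≤ δ / 8 * (X : ℝ) ^ ε)
    (hlog : Real.log 2 ≤ δ / 8 * Real.log X) (hbig : 2 ≤ (X : ℝ) ^ ε)
    (hbad : ∀ h : ℝ, 1 ≤ h → h ≤ (p : ℝ) ^ ε → 1 + δ < closedDensity p h) :
    δ / 4 < |density n ((n : ℝ) ^ ε) - 1| := by
  have hX3 : (3 : ℝ) ≤ X := by exact_mod_cast hX1
  have hXnr : (X : ℝ) ≤ n := by exact_mod_cast hXn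
  have hn0 : (0 : ℝ) < n := by linarith
  have hnpr : (n : ℝ) < p := by exact_mod_cast hnp
  have hprr : (p : ℝ) ≤ n + r := by exact_mod_cast hpr
  have hp2r : (p : ℝ) ≤ 2 * n := by exact_mod_cast hp2
  obtain ⟨y, hy⟩ : ∃ y : ℝ, y = (n : ℝ) ^ ε := ⟨_, rfl⟩
  have hXy : (X : ℝ) ^ ε ≤ y := by rw [hy]; exact Real.rpow_le_rpow (by linarith) hXnr hε.le
  have hry : (r : ℝ) ≤ δ / 8 * y := hrX.trans (mul_le_mul_of_nonneg_left hXy (by positivity))
  have hy2 : 2 ≤ y := hbig.trans hXy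
  obtain ⟨h, hh⟩ : ∃ h : ℝ, h = y - (p - n) := ⟨_, rfl⟩
  have hh1 : (1 - δ / 8) * y ≤ h := by rw [hh]; linarith
  have hh1' : 1 ≤ h := by
    have : 7 / 8 * y ≤ (1 - δ / 8) * y := mul_le_mul_of_nonneg_right (by linarith) (by linarith)
    linarith
  have hhy : h ≤ y := by rw [hh]; linarith
  have hhp : h ≤ (p : ℝ) ^ ε := by
    refine hhy.trans ?_
    rw [hy]
    exact Real.rpow_le_rpow hn0.le hnpr.le hε.le
  have hb := hbad h hh1' hhp
  have hsum : (p : ℝ) + h = n + y := by rw [hh]; ring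
  unfold closedDensity at hb
  rw [hsum, lt_div_iff₀ (by linarith)] at hb
  obtain ⟨q, hq⟩ : ∃ q : ℝ, q = (((Finset.Icc p ⌊(n : ℝ) + y⌋₊).filter Nat.Prime).card : ℝ) := ⟨_, rfl⟩
  obtain ⟨q', hq'⟩ : ∃ q' : ℝ, q' = (((Finset.Ioc n ⌊(n : ℝ) + y⌋₊).filter Nat.Prime).card : ℝ) := ⟨_, rfl⟩
  rw [← hq] at hb
  have hqq : q ≤ q' := by
    rw [hq, hq']
    apply Nat.cast_le.2
    apply card_le_card
    intro m hm
    rw [mem_filter, mem_Icc] at hm
    rw [mem_filter, mem_Ioc]
    exact ⟨⟨by omega, hm.1.2⟩, hm.2⟩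
  have hq0 : 0 ≤ q := by rw [hq]; positivity
  have hlogp : 0 < Real.log p := Real.log_pos (by linarith)
  have hlogn : 0 < Real.log n := Real.log_pos (by linarith)
  have hlog1 : Real.log p ≤ (1 + δ / 8) * Real.log n := by
    have h1 : Real.log p ≤ Real.log (2 * n) := Real.log_le_log (by linarith) hp2r
    rw [Real.log_mul (by norm_num) hn0.ne'] at h1
    have h2 : Real.log X ≤ Real.log n := Real.log_le_log (by linarith) hXnr
    have h3 := mul_le_mul_of_nonneg_left h2 (show 0 ≤ δ / 8 by positivity)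
    linarith
  have hlog2 : (1 - δ / 8) * Real.log p ≤ Real.log n := by
    have h1 := mul_le_mul_of_nonneg_left hlog1 (show 0 ≤ 1 - δ / 8 by linarith)
    have h2 : (1 - δ / 8) * ((1 + δ / 8) * Real.log n) ≤ Real.log n := by
      have e : Real.log n - (1 - δ / 8) * ((1 + δ / 8) * Real.log n) = δ ^ 2 / 64 * Real.log n := by ring
      have : 0 ≤ δ ^ 2 / 64 * Real.log n := by positivity
      linarith
    linarith
  have hfin : (1 + δ / 2) * y ≤ q' * Real.log n := by
    calc (1 + δ / 2) * y ≤ (1 - δ / 8) * ((1 + δ) * ((1 - δ / 8) * y)) := by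
          have e : (1 - δ / 8) * ((1 + δ) * ((1 - δ / 8) * y)) - (1 + δ / 2) * y =
              δ * (1 / 4 - 15 / 64 * δ + δ ^ 2 / 64) * y := by ring
          have e2 : 0 ≤ 1 / 4 - 15 / 64 * δ + δ ^ 2 / 64 := by
            have := sq_nonneg δ
            linarith
          have : 0 ≤ δ * (1 / 4 - 15 / 64 * δ + δ ^ 2 / 64) * y :=
            mul_nonneg (mul_nonneg hδ.le e2) (by linarith)
          linarith
      _ ≤ (1 - δ / 8) * ((1 + δ) * h) := by
          apply mul_le_mul_of_nonneg_left _ (by linarith)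
          exact mul_le_mul_of_nonneg_left hh1 (by linarith)
      _ ≤ (1 - δ / 8) * (q * Real.log p) := mul_le_mul_of_nonneg_left hb.le (by linarith)
      _ = q * ((1 - δ / 8) * Real.log p) := by ring
      _ ≤ q * Real.log n := mul_le_mul_of_nonneg_left hlog2 hq0
      _ ≤ q' * Real.log n := mul_le_mul_of_nonneg_right hqq hlogn.le
  have hd : 1 + δ / 2 ≤ density n ((n : ℝ) ^ ε) := by
    unfold density
    rw [← hy, ← hq', le_div_iff₀ (by linarith)]
    exact hfin
  have := le_abs_self (density n ((n : ℝ) ^ ε) - 1)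
  linarith

/-- Brun–Titchmarsh -/
lemma bt : ∃ C : ℝ, 1 ≤ C ∧ ∀ n r : ℕ, 2 ≤ r → (pc n (n + r) : ℝ) ≤ C * r / Real.log r := by
  obtain ⟨C, hC, h⟩ := Pool.Agent.Helper602.MK.BTLib.brun_titchmarsh
  refine ⟨C, hC, fun n r hr => ?_⟩
  have h1 := h (n + 1) 1 r le_rfl hr
  simp only [Nat.totient_one, Nat.cast_one, div_one, mul_one] at h1
  refine le_trans ?_ h1
  apply Nat.cast_le.2
  unfold pc
  apply card_le_card_of_injOn (fun m => m - (n + 1))
  · intro m hm
    rw [mem_coe, mem_filter, mem_Ioc] at hm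
    have e : n + 1 + (m - (n + 1)) = m := by omega
    have e1 : m - (n + 1) < r := by omega
    simp only [mem_coe, mem_filter, mem_range, e]
    exact ⟨e1, hm.2⟩
  · intro m hm m' hm' he
    rw [mem_coe, mem_filter, mem_Ioc] at hm hm'
    simp only at he
    omega

open Classical in
/-- double counting -/
lemma count {Bp Z : Finset ℕ} {r : ℕ} {K : ℝ} (hpr : ∀ p ∈ Bp, p.Prime)
    (hsub : ∀ p ∈ Bp, r ≤ p ∧ ∀ n : ℕ, p - r ≤ n → n < p → n ∈ Z)
    (hK : ∀ n : ℕ, (pc n (n + r) : ℝ) ≤ K) : (r : ℝ) * Bp.card ≤ K * Z.card := by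
  have h1 : ∀ p ∈ Bp, (r : ℝ) ≤ ∑ n ∈ Z, (if n < p ∧ p ≤ n + r then (1 : ℝ) else 0) := by
    intro p hp
    obtain ⟨h2, h3⟩ := hsub p hp
    rw [sum_boole]
    have h4 : Ico (p - r) p ⊆ Z.filter (fun n => n < p ∧ p ≤ n + r) := by
      intro n hn
      rw [mem_Ico] at hn
      rw [mem_filter]
      exact ⟨h3 n hn.1 hn.2, hn.2, by omega⟩
    have h5 := card_le_card h4
    rw [Nat.card_Ico] at h5
    have h6 : r ≤ (Z.filter (fun n => n < p ∧ p ≤ n + r)).card := by omega
    exact_mod_cast h6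
  have h2 : ∀ n ∈ Z, ∑ p ∈ Bp, (if n < p ∧ p ≤ n + r then (1 : ℝ) else 0) ≤ K := by
    intro n _
    rw [sum_boole]
    refine le_trans ?_ (hK n)
    apply Nat.cast_le.2
    unfold pc
    apply card_le_card
    intro p hp
    rw [mem_filter] at hp
    rw [mem_filter, mem_Ioc]
    exact ⟨hp.2, hpr p hp.1⟩
  calc (r : ℝ) * Bp.card = ∑ _p ∈ Bp, (r : ℝ) := by rw [sum_const, nsmul_eq_mul, mul_comm]
    _ ≤ ∑ p ∈ Bp, ∑ n ∈ Z, (if n < p ∧ p ≤ n + r then (1 : ℝ) else 0) := sum_le_sum h1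
    _ = ∑ n ∈ Z, ∑ p ∈ Bp, (if n < p ∧ p ≤ n + r then (1 : ℝ) else 0) := sum_comm
    _ ≤ ∑ _n ∈ Z, K := sum_le_sum h2
    _ = K * Z.card := by rw [sum_const, nsmul_eq_mul, mul_comm]

open Classical in
lemma core2 {ε δ η : ℝ} (hε : 0 < ε) (hε1 : ε ≤ 1) (hδ : 0 < δ) (hδ1 : δ ≤ 1) (hη : 0 < η) (hη1 : η ≤ 1)
    (hA : ∀ η' : ℝ, 0 < η' → ∀ᶠ N : ℕ in atTop,
      (((range N).filter (fun n : ℕ => δ / 4 < |density n ((n : ℝ) ^ ε) - 1|)).card : ℝ) ≤ η' * N) :
    ∀ᶠ N : ℕ in atTop, ((badP ε δ N).card : ℝ) ≤ η * Nat.primeCounting N := by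
  obtain ⟨C, hC1, hBT⟩ := bt
  obtain ⟨θ, hθ⟩ : ∃ θ : ℝ, θ = η / 100 := ⟨_, rfl⟩
  have hθ0 : 0 < θ := by rw [hθ]; positivity
  have hθ1 : θ ≤ 1 / 100 := by rw [hθ]; linarith
  obtain ⟨η', hη'⟩ : ∃ η' : ℝ, η' = η * ε / (16 * C) := ⟨_, rfl⟩
  have hη'0 : 0 < η' := by rw [hη']; positivity
  have hNr : Tendsto (fun N : ℕ => (N : ℝ)) atTop atTop := tendsto_natCast_atTop_atTop
  have hX : Tendsto (fun N : ℕ => ⌊θ * (N : ℝ)⌋₊) atTop atTop :=
    tendsto_nat_floor_atTop.comp (hNr.const_mul_atTop hθ0)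
  have hXr : Tendsto (fun N : ℕ => (⌊θ * (N : ℝ)⌋₊ : ℝ)) atTop atTop :=
    tendsto_natCast_atTop_atTop.comp hX
  have hlog : Tendsto (fun N : ℕ => Real.log (N : ℝ)) atTop atTop := Real.tendsto_log_atTop.comp hNr
  have hlogX : Tendsto (fun N : ℕ => Real.log (⌊θ * (N : ℝ)⌋₊ : ℝ)) atTop atTop :=
    Real.tendsto_log_atTop.comp hXr
  have hpow : Tendsto (fun N : ℕ => (N : ℝ) ^ (ε / 2)) atTop atTop :=
    (tendsto_rpow_atTop (by positivity)).comp hNr
  obtain ⟨X₀, hX₀3, hpnt⟩ := pnt (1 / 2) (by norm_num)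
  filter_upwards [hX.eventually_ge_atTop (max 3 X₀), hlog.eventually_ge_atTop 1,
    hlog.eventually_ge_atTop (Real.log (2 / θ) * 2), hlogX.eventually_ge_atTop (8 / δ * Real.log 2),
    hpow.eventually_ge_atTop (32 / (δ * θ)), hNr.eventually_ge_atTop (max 2 (2 / θ)),
    hA η' hη'0, ((tendsto_rpow_atTop hε).comp hXr).eventually_ge_atTop 2,
    eventually_ge_atTop X₀] with N h1 h2 h3 h4 h5 h6 h7 h8 h9
  obtain ⟨X, hXdef⟩ : ∃ X : ℕ, X = ⌊θ * (N : ℝ)⌋₊ := ⟨_, rfl⟩
  obtain ⟨L, hL⟩ : ∃ L : ℝ, L = Real.log N := ⟨_, rfl⟩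
  simp only [Function.comp] at h8
  rw [← hXdef] at h1 h4 h8
  rw [← hL] at h2 h3
  have hN2 : (2 : ℝ) ≤ N := (le_max_left _ _).trans h6
  have hNθ : 2 / θ ≤ (N : ℝ) := (le_max_right _ _).trans h6
  have hN0 : (0 : ℝ) < N := by linarith
  have hNθ' : 2 ≤ θ * N := by rw [div_le_iff₀ hθ0] at hNθ; linarith
  have hXge : θ * N / 2 ≤ (X : ℝ) := by
    have := Nat.lt_floor_add_one (θ * (N : ℝ))
    rw [← hXdef] at this
    linarith
  have hXle : (X : ℝ) ≤ θ * N := by rw [hXdef]; exact Nat.floor_le (by positivity)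
  have hX3 : 3 ≤ X := (le_max_left _ _).trans h1
  have hX3r : (3 : ℝ) ≤ (X : ℝ) := by exact_mod_cast hX3
  have hXX₀ : X₀ ≤ 2 * X := by have := (le_max_right 3 X₀).trans h1; omega
  obtain ⟨r, hr⟩ : ∃ r : ℕ, r = ⌊δ / 8 * (X : ℝ) ^ ε⌋₊ := ⟨_, rfl⟩
  have hXε0 : 0 ≤ (X : ℝ) ^ ε := by positivity
  have hrX : (r : ℝ) ≤ δ / 8 * (X : ℝ) ^ ε := by rw [hr]; exact Nat.floor_le (by positivity)
  have hrX2 : r ≤ X := by
    have g1 : (X : ℝ) ^ ε ≤ X := by
      calc (X : ℝ) ^ ε ≤ (X : ℝ) ^ (1 : ℝ) := Real.rpow_le_rpow_of_exponent_le (by linarith) hε1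
        _ = X := Real.rpow_one _
    have g2 : δ / 8 * (X : ℝ) ^ ε ≤ 1 * (X : ℝ) ^ ε := mul_le_mul_of_nonneg_right (by linarith) hXε0
    have g3 : (r : ℝ) ≤ X := by linarith
    exact_mod_cast g3
  -- `r` is at least `N ^ (ε / 2)`
  have hrN : (N : ℝ) ^ (ε / 2) ≤ r := by
    obtain ⟨y, hy⟩ : ∃ y, y = (N : ℝ) ^ (ε / 2) := ⟨_, rfl⟩
    rw [← hy] at h5 ⊢
    have hy2 : (N : ℝ) ^ ε = y * y := by
      rw [hy, ← Real.rpow_add hN0]
      congr 1
      ring
    have e2 : θ / 2 * (y * y) ≤ (X : ℝ) ^ ε := by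
      have g1 : (θ * N / 2) ^ ε ≤ (X : ℝ) ^ ε := Real.rpow_le_rpow (by positivity) hXge hε.le
      have g2 : (θ * N / 2) ^ ε = (θ / 2) ^ ε * (N : ℝ) ^ ε := by
        rw [← Real.mul_rpow (by positivity) hN0.le]
        congr 1
        ring
      have g3 : θ / 2 ≤ (θ / 2) ^ ε := by
        calc θ / 2 = (θ / 2) ^ (1 : ℝ) := (Real.rpow_one _).symm
          _ ≤ (θ / 2) ^ ε := Real.rpow_le_rpow_of_exponent_ge (by positivity) (by linarith) hε1
      rw [g2, hy2] at g1
      exact (mul_le_mul_of_nonneg_right g3 (mul_self_nonneg y)).trans g1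
    have hδθ : 0 < δ * θ := by positivity
    rw [div_le_iff₀ hδθ] at h5
    have hδθ1 : δ * θ ≤ 1 := by
      have := mul_le_mul hδ1 hθ1 hθ0.le (by norm_num)
      linarith
    have hy0 : 0 ≤ y := by rw [hy]; positivity
    have hy32 : 32 ≤ y := by
      have := mul_le_mul_of_nonneg_left hδθ1 hy0
      linarith
    have e4 : 2 * y ≤ δ / 8 * (θ / 2 * (y * y)) := by
      have := mul_le_mul_of_nonneg_left h5 hy0
      have e5 : δ / 8 * (θ / 2 * (y * y)) = y * (y * (δ * θ)) / 16 := by ring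
      rw [e5]
      linarith
    have e6 : δ / 8 * (θ / 2 * (y * y)) ≤ δ / 8 * (X : ℝ) ^ ε := mul_le_mul_of_nonneg_left e2 (by positivity)
    have e7 := Nat.lt_floor_add_one (δ / 8 * (X : ℝ) ^ ε)
    rw [← hr] at e7
    linarith
  have hy2 : 2 ≤ (N : ℝ) ^ (ε / 2) := by
    refine le_trans ?_ h5
    rw [le_div_iff₀ (by positivity)]
    have := mul_le_mul hδ1 hθ1 hθ0.le (by norm_num)
    linarith
  have hr2 : 2 ≤ r := by
    have : (2 : ℝ) ≤ r := hy2.trans hrN
    exact_mod_cast this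
  have hlogr : ε / 2 * L ≤ Real.log r := by
    rw [hL, ← Real.log_rpow hN0]
    exact Real.log_le_log (by positivity) hrN
  have hlogr0 : 0 < Real.log r := by
    have : 0 < ε / 2 * L := by positivity
    linarith
  obtain ⟨Z, hZ⟩ : ∃ Z : Finset ℕ, Z = (range N).filter (fun n : ℕ => δ / 4 < |density n ((n : ℝ) ^ ε) - 1|) := ⟨_, rfl⟩
  rw [← hZ] at h7
  obtain ⟨Bp, hBp⟩ : ∃ Bp : Finset ℕ, Bp = (badP ε δ N).filter (fun p => 2 * X ≤ p) := ⟨_, rfl⟩
  have hlogX2 : Real.log 2 ≤ δ / 8 * Real.log X := by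
    have := mul_le_mul_of_nonneg_left h4 (show 0 ≤ δ / 8 by positivity)
    calc Real.log 2 = δ / 8 * (8 / δ * Real.log 2) := by field_simp
      _ ≤ _ := this
  have hcount := count (Bp := Bp) (Z := Z) (r := r) (K := C * r / Real.log r) (by
    intro p hp
    rw [hBp, mem_filter] at hp
    unfold badP at hp
    rw [mem_filter] at hp
    exact hp.1.2.1) (by
    intro p hp
    rw [hBp, mem_filter] at hp
    obtain ⟨hp1, hp2⟩ := hp
    unfold badP at hp1
    rw [mem_filter, mem_range] at hp1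
    refine ⟨by omega, fun n hn1 hn2 => ?_⟩
    rw [hZ, mem_filter, mem_range]
    refine ⟨by omega, ?_⟩
    exact claim hε hδ hδ1 hX3 (by omega) hn2 (by omega) (by omega) hrX hlogX2 h8 hp1.2.2)
    (fun n => hBT n r hr2)
  have hrpos : (0 : ℝ) < r := by
    have : (2 : ℝ) ≤ r := by exact_mod_cast hr2
    linarith
  have hBpc : (Bp.card : ℝ) ≤ η / 8 * (N / L) := by
    have g1 : (Bp.card : ℝ) ≤ C / Real.log r * Z.card := by
      have e : (r : ℝ) * Bp.card ≤ r * (C / Real.log r * Z.card) := by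
        refine hcount.trans (le_of_eq ?_)
        ring
      exact le_of_mul_le_mul_left e hrpos
    have g2 : C / Real.log r ≤ C / (ε / 2 * L) :=
      div_le_div_of_nonneg_left (by linarith) (by positivity) hlogr
    calc (Bp.card : ℝ) ≤ C / Real.log r * Z.card := g1
      _ ≤ C / (ε / 2 * L) * (η' * N) := mul_le_mul g2 h7 (Nat.cast_nonneg _) (by positivity)
      _ = η / 8 * (N / L) := by
        rw [hη']
        field_simp
        ring
  have hL0 : 0 < L := by linarith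
  have hpi : N / L ≤ 2 * Nat.primeCounting N := by
    have := (hpnt N h9).1
    rw [← hL] at this
    have e : (1 - 1 / 2 : ℝ) * N / L = N / L / 2 := by ring
    rw [e] at this
    linarith
  have hsmall : (((badP ε δ N).filter (fun p => ¬ 2 * X ≤ p)).card : ℝ) ≤ 6 * θ * (N / L) := by
    have g1 : (((badP ε δ N).filter (fun p => ¬ 2 * X ≤ p)).card : ℝ) ≤ Nat.primeCounting (2 * X) := by
      rw [← pc_zero]
      apply Nat.cast_le.2
      unfold pc
      apply card_le_card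
      intro p hp
      rw [mem_filter] at hp
      obtain ⟨hp1, hp2⟩ := hp
      unfold badP at hp1
      rw [mem_filter] at hp1
      rw [mem_filter, mem_Ioc]
      exact ⟨⟨hp1.2.1.pos, by omega⟩, hp1.2.1⟩
    have g2 := (hpnt (2 * X) hXX₀).2
    have g3 : L / 2 ≤ Real.log ((2 * X : ℕ) : ℝ) := by
      have e1 : Real.log (θ * N / 2) ≤ Real.log ((2 * X : ℕ) : ℝ) := by
        apply Real.log_le_log (by positivity)
        push_cast
        linarith
      have e2 : Real.log (θ * N / 2) = L - Real.log (2 / θ) := by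
        rw [hL, show θ * (N : ℝ) / 2 = N / (2 / θ) by field_simp, Real.log_div (by positivity) (by positivity)]
      linarith
    calc (((badP ε δ N).filter (fun p => ¬ 2 * X ≤ p)).card : ℝ) ≤ Nat.primeCounting (2 * X) := g1
      _ ≤ (1 + 1 / 2) * ((2 * X : ℕ) : ℝ) / Real.log ((2 * X : ℕ) : ℝ) := g2
      _ ≤ (1 + 1 / 2) * ((2 * X : ℕ) : ℝ) / (L / 2) :=
        div_le_div_of_nonneg_left (by positivity) (by positivity) g3
      _ ≤ (1 + 1 / 2) * (2 * (θ * N)) / (L / 2) := by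
        apply div_le_div_of_nonneg_right _ (by positivity)
        push_cast
        linarith
      _ = 6 * θ * (N / L) := by
        field_simp
        ring
  have htot : ((badP ε δ N).card : ℝ) = Bp.card + ((badP ε δ N).filter (fun p => ¬ 2 * X ≤ p)).card := by
    rw [hBp]
    exact_mod_cast (card_filter_add_card_filter_not (s := badP ε δ N) (fun p => 2 * X ≤ p)).symm
  rw [htot]
  have e1 : 6 * θ * (N / L) = 6 / 100 * η * (N / L) := by rw [hθ]; ring
  rw [e1] at hsmall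
  have e2 : 0 ≤ η * (N / L) := by positivity
  have e3 := mul_le_mul_of_nonneg_left hpi hη.le
  linarith

/-- The asymptotic formula of Q1 for almost all integers, the same uniformly in the length, and the existence of
ONE length at most primes for which the closed interval after the prime is not too dense, are equivalent. -/
theorem result : (AlmostAll ↔ OneLength) ∧ (AlmostAllUniform ↔ OneLength) := by
  classical
  have h1 : AlmostAllUniform → AlmostAll := by
    intro h ε δ η hε hε1 hδ hη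
    filter_upwards [h ε δ η hε hδ hη] with N hN
    refine le_trans ?_ hN
    apply Nat.cast_le.2
    apply card_le_card
    intro n hn
    rw [mem_filter] at hn ⊢
    refine ⟨hn.1, _, le_rfl, ?_, hn.2⟩
    rcases Nat.eq_zero_or_pos n with h0 | h0
    · subst h0
      simp [Real.zero_rpow hε.ne']
    · have h2 : (1 : ℝ) ≤ n := by exact_mod_cast h0
      calc (n : ℝ) ^ ε ≤ (n : ℝ) ^ (1 : ℝ) := Real.rpow_le_rpow_of_exponent_le h2 hε1
        _ = n := Real.rpow_one _
  have h2 : AlmostAll → OneLength := by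
    intro h ε δ η hε hδ hη
    have hm1 : 0 < min ε 1 := lt_min hε one_pos
    have hm2 : 0 < min δ 1 := lt_min hδ one_pos
    have hm3 : 0 < min η 1 := lt_min hη one_pos
    filter_upwards [core2 hm1 (min_le_right _ _) hm2 (min_le_right _ _) hm3 (min_le_right _ _)
      (fun η' hη' => h (min ε 1) (min δ 1 / 4) η' hm1 (min_le_right _ _) (by positivity) hη')] with N hN
    have h3 : min η 1 * (Nat.primeCounting N : ℝ) ≤ η * Nat.primeCounting N :=
      mul_le_mul_of_nonneg_right (min_le_left _ _) (Nat.cast_nonneg _)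
    refine le_trans ?_ (hN.trans h3)
    apply Nat.cast_le.2
    unfold badP
    apply card_le_card
    intro p hp
    rw [mem_filter] at hp ⊢
    refine ⟨hp.1, hp.2.1, fun k hk1 hk2 => ?_⟩
    have hp1 : (1 : ℝ) ≤ p := by exact_mod_cast hp.2.1.one_le
    have h4 := hp.2.2 k hk1 (hk2.trans (Real.rpow_le_rpow_of_exponent_le hp1 (min_le_left _ _)))
    have := min_le_left δ 1
    linarith
  have h3 : OneLength → AlmostAllUniform := by
    intro h ε δ η hε hδ hη
    have hm1 : 0 < min ε 1 := lt_min hε one_pos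
    have hm2 : 0 < min δ 1 := lt_min hδ one_pos
    have hm3 : 0 < min η 1 := lt_min hη one_pos
    obtain ⟨θ, hθ⟩ : ∃ θ : ℝ, θ = min δ 1 * min η 1 / 1000 := ⟨_, rfl⟩
    have hθ0 : 0 < θ := by rw [hθ]; positivity
    have hθ1 : θ ≤ 1 / 10 := by
      have := mul_le_mul (min_le_right δ 1) (min_le_right η 1) hm3.le (by norm_num)
      rw [hθ]
      linarith
    have hlim : Tendsto (fun N : ℕ => 3 * N + 1) atTop atTop :=
      tendsto_atTop_mono (fun N => by simp only [id]; omega) tendsto_id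
    filter_upwards [ev_par (min ε 1) θ hm1 (min_le_right _ _) hθ0 hθ1,
      hlim.eventually (h (min ε 1 / 2) θ θ (by positivity) hθ0 hθ0)] with N hN1 hN2
    have h4 := core hm1 (min_le_right _ _) hm2 (min_le_right _ _) hm3 (min_le_right _ _) hθ hN1 hN2
    have h5 : min η 1 * (N : ℝ) ≤ η * N := mul_le_mul_of_nonneg_right (min_le_left _ _) (Nat.cast_nonneg _)
    refine le_trans ?_ (h4.trans h5)
    apply Nat.cast_le.2
    unfold badU
    apply card_le_card
    intro n hn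
    rw [mem_filter] at hn ⊢
    obtain ⟨hn1, H, hH1, hH2, hH3⟩ := hn
    refine ⟨hn1, H, ?_, hH2, lt_of_le_of_lt (min_le_left _ _) hH3⟩
    rcases Nat.eq_zero_or_pos n with h0 | h0
    · subst h0
      rw [Nat.cast_zero, Real.zero_rpow hε.ne'] at hH1
      rw [Nat.cast_zero, Real.zero_rpow hm1.ne']
      exact hH1
    · have h2 : (1 : ℝ) ≤ n := by exact_mod_cast h0
      exact (Real.rpow_le_rpow_of_exponent_le h2 (min_le_left _ _)).trans hH1
  exact ⟨⟨h2, fun h => h1 (h3 h)⟩, ⟨fun h => h2 (h1 h), h3⟩⟩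

end Pool.Agent.Results.MP_31d0eb_nt.OneLengthAtMostPrimes
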