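import Mathlib

/-!
# Q1 can be tested on sparse sequences, with one length for each direction

`density x H` is `π(x, H) log x / H`. Let `f n` be any sequence of real numbers which tends to infinity and
satisfies `f (n + 1) / f n → 1`. The theorem says that the asymptotic formula for ALL large `x` and ALL
lengths `x ^ ε ≤ H ≤ x` (for every `ε > 0`) is equivalent to the following: for each real `α > 1` (or
only for each `α` in some set which is not meagre and may depend on `ε, δ`), for all large `n` the point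
`x = α ^ f n` has ONE length `h` in `[1, x ^ ε]` with density at least `1 - δ` and one length with density
at most `1 + δ`.
-/

set_option autoImplicit false

open Filter Topology Set

namespace Pool.Agent.Results.MP_31d0eb_nt.SparseTestSequences

/-- `π(x, H)`: the number of primes `p` with `x < p ≤ x + H` -/
noncomputable def primesIn (x H : ℝ) : ℝ := (((Finset.Ioc ⌊x⌋₊ ⌊x + H⌋₊).filter Nat.Prime).card : ℝ)

/-- `π(x, H) log x / H` -/
noncomputable def density (x H : ℝ) : ℝ := primesIn x H * Real.log x / H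

/-- the assertion of Q1: for every `ε > 0` the supremum of `|π(x, H) log x / H - 1|` over
`x ^ ε ≤ H ≤ x` tends to zero -/
def ShortIntervals : Prop := ∀ ε : ℝ, 0 < ε → ∀ δ : ℝ, 0 < δ → ∀ᶠ x : ℝ in atTop,
  ∀ H : ℝ, x ^ ε ≤ H → H ≤ x → |density x H - 1| ≤ δ

/-- for all large `n` the point `x = α ^ f n` has a length `h` in `[1, x ^ ε]` with density at least
`1 - δ` and a length `h` in `[1, x ^ ε]` with density at most `1 + δ` -/
def OneLength (f : ℕ → ℝ) (ε δ α : ℝ) : Prop := ∀ᶠ n : ℕ in atTop,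
  (∃ h : ℝ, 1 ≤ h ∧ h ≤ (α ^ f n) ^ ε ∧ 1 - δ ≤ density (α ^ f n) h) ∧
  (∃ h : ℝ, 1 ≤ h ∧ h ≤ (α ^ f n) ^ ε ∧ density (α ^ f n) h ≤ 1 + δ)

lemma primesIn_nonneg (x H : ℝ) : 0 ≤ primesIn x H := Nat.cast_nonneg _

lemma primesIn_zero (x : ℝ) : primesIn x 0 = 0 := by
  unfold primesIn
  simp

lemma primesIn_mono {x y H K : ℝ} (h1 : x ≤ y) (h2 : y + K ≤ x + H) : primesIn y K ≤ primesIn x H := by
  unfold primesIn
  apply Nat.cast_le.2
  apply Finset.card_le_card
  apply Finset.filter_subset_filter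
  exact Finset.Ioc_subset_Ioc (Nat.floor_le_floor h1) (Nat.floor_le_floor h2)

lemma primesIn_add {x s h : ℝ} (hs : 0 ≤ s) (hh : 0 ≤ h) :
    primesIn x (s + h) = primesIn x s + primesIn (x + s) h := by
  unfold primesIn
  rw [← Nat.cast_add, ← Finset.card_union_of_disjoint, ← Finset.filter_union, ← add_assoc,
    Finset.Ioc_union_Ioc_eq_Ioc (Nat.floor_le_floor (by linarith)) (Nat.floor_le_floor (by linarith))]
  apply Finset.disjoint_filter_filter
  rw [Finset.disjoint_left]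
  intro m h1 h2
  rw [Finset.mem_Ioc] at h1 h2
  omega

/-- stepping through an interval -/
lemma steps {η L H : ℝ} (hη : 0 < η) (hL : 0 ≤ L) (P : ℝ → Prop) (h0 : P 0)
    (hstep : ∀ s : ℝ, 0 ≤ s → s ≤ H → P s → ∃ h : ℝ, η ≤ h ∧ h ≤ L ∧ P (s + h)) :
    ∀ T : ℝ, T ≤ H → ∃ s : ℝ, 0 ≤ s ∧ T ≤ s ∧ s ≤ max T 0 + L ∧ P s := by
  have key : ∀ n : ℕ, ∀ T : ℝ, T ≤ H → T ≤ n * η → ∃ s : ℝ, 0 ≤ s ∧ T ≤ s ∧ s ≤ max T 0 + L ∧ P s := by
    intro n
    induction n with
    | zero =>
      intro T hT1 hT2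
      refine ⟨0, le_rfl, by simpa using hT2, ?_, h0⟩
      have := le_max_right T 0
      linarith
    | succ n ih =>
      intro T hT1 hT2
      obtain ⟨s, hs0, hs1, hs2, hs3⟩ := ih (T - η) (by linarith) (by push_cast at hT2; linarith)
      rcases le_or_gt T s with h | h
      · refine ⟨s, hs0, h, hs2.trans ?_, hs3⟩
        have : max (T - η) 0 ≤ max T 0 := max_le_max (by linarith) le_rfl
        linarith
      · obtain ⟨k, hk1, hk2, hk3⟩ := hstep s hs0 (by linarith) hs3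
        refine ⟨s + k, by linarith, by linarith, ?_, hk3⟩
        have := le_max_left T 0
        linarith
  intro T hT
  obtain ⟨n, hn⟩ := exists_nat_ge (T / η)
  exact key n T hT (by rwa [div_le_iff₀ hη] at hn)

/-- few primes in a long interval: from some point all lengths are bad -/
lemma low_point {x H L c : ℝ} (hc : 0 ≤ c) (hL : 0 ≤ L) (hLH : L ≤ H) (h : primesIn x H < c * (H - L)) :
    ∃ y : ℝ, x ≤ y ∧ y ≤ x + H ∧ ∀ k : ℝ, 1 ≤ k → k ≤ L → primesIn y k < c * k := by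
  by_contra hcon
  push Not at hcon
  obtain ⟨s, hs0, hs1, hs2, hs3⟩ := steps (η := 1) (L := L) (H := H) one_pos hL
    (fun s => c * s ≤ primesIn x s) (by simp [primesIn_zero]) (by
      intro s hs0 hs1 hs2
      obtain ⟨k, hk1, hk2, hk3⟩ := hcon (x + s) (by linarith) (by linarith)
      refine ⟨k, hk1, hk2, ?_⟩
      rw [primesIn_add hs0 (by linarith)]
      linarith) (H - L) (by linarith)
  rw [max_eq_left (by linarith)] at hs2
  have h1 : primesIn x s ≤ primesIn x H := primesIn_mono le_rfl (by linarith)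
  have h2 : c * (H - L) ≤ c * s := mul_le_mul_of_nonneg_left hs1 hc
  linarith

/-- many primes in a long interval: from some point all lengths are bad -/
lemma high_point {x H L c : ℝ} (hc : 0 ≤ c) (hL : 0 ≤ L) (hH : 0 ≤ H) (h : c * (H + L) < primesIn x H) :
    ∃ y : ℝ, x ≤ y ∧ y ≤ x + H ∧ ∀ k : ℝ, 1 / 2 ≤ k → k ≤ L → c * k < primesIn y k := by
  by_contra hcon
  push Not at hcon
  obtain ⟨s, hs0, hs1, hs2, hs3⟩ := steps (η := 1 / 2) (L := L) (H := H) (by norm_num) hL
    (fun s => primesIn x s ≤ c * s) (by simp [primesIn_zero]) (by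
      intro s hs0 hs1 hs2
      obtain ⟨k, hk1, hk2, hk3⟩ := hcon (x + s) (by linarith) (by linarith)
      refine ⟨k, hk1, hk2, ?_⟩
      rw [primesIn_add hs0 (by linarith)]
      linarith) H le_rfl
  rw [max_eq_left hH] at hs2
  have h1 : primesIn x H ≤ primesIn x s := primesIn_mono le_rfl (by linarith)
  have h2 : c * s ≤ c * (H + L) := mul_le_mul_of_nonneg_left hs2 hc
  linarith

/-- Baire's theorem along `α ^ f n` -/
lemma baire {f : ℕ → ℝ} (hf : Tendsto f atTop atTop)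
    (hf1 : Tendsto (fun n => f (n + 1) / f n) atTop (𝓝 1)) (Bad : ℝ → Prop)
    (hB : ∀ X : ℝ, ∃ u v : ℝ, X ≤ u ∧ u < v ∧ ∀ y : ℝ, u < y → y < v → Bad y) :
    ∀ᶠ α : ℝ in residual ℝ, 1 < α → ∃ᶠ n : ℕ in atTop, Bad (α ^ f n) := by
  have hV : ∀ m : ℕ, {α : ℝ | α < 1 ∨ (1 < α ∧ ∃ u v : ℝ, (m : ℝ) ≤ u ∧ (∀ y : ℝ, u < y → y < v → Bad y) ∧
      ∃ n : ℕ, u < α ^ f n ∧ α ^ f n < v)} ∈ residual ℝ := by
    intro m
    apply residual_of_dense_open
    · rw [isOpen_iff_mem_nhds]
      rintro α (h | ⟨h, u, v, hu, hbad, n, h1, h2⟩)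
      · filter_upwards [Iio_mem_nhds h] with β hβ
        exact Or.inl hβ
      · have hcont : ContinuousAt (fun β : ℝ => β ^ f n) α :=
          Real.continuousAt_rpow_const α (f n) (Or.inl (by linarith))
        filter_upwards [Ioi_mem_nhds h, hcont.eventually (Ioo_mem_nhds h1 h2)] with β hβ1 hβ2
        exact Or.inr ⟨hβ1, u, v, hu, hbad, n, hβ2.1, hβ2.2⟩
    · rw [dense_iff_inter_open]
      intro O hO hne
      obtain ⟨z, hz⟩ := hne
      rcases lt_or_ge z 1 with hz1 | hz1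
      · exact ⟨z, hz, Or.inl hz1⟩
      -- an interval `(a, b)` inside `O` with `1 < a`
      obtain ⟨r, hr, hball⟩ := Metric.isOpen_iff.1 hO z hz
      obtain ⟨a, ha⟩ : ∃ a, a = z + r / 4 := ⟨_, rfl⟩
      obtain ⟨b, hb⟩ : ∃ b, b = z + r / 2 := ⟨_, rfl⟩
      have ha1 : 1 < a := by linarith
      have hab : a < b := by linarith
      have hsub : ∀ α : ℝ, a < α → α < b → α ∈ O := by
        intro α h1 h2
        apply hball
        rw [Metric.mem_ball, Real.dist_eq, abs_lt]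
        constructor <;> linarith
      have ha0 : 0 < a := by linarith
      have hb0 : 0 < b := by linarith
      have hla : 0 < Real.log a := Real.log_pos ha1
      have hlab : Real.log a < Real.log b := Real.log_lt_log ha0 hab
      have hr1 : 1 < Real.log b / Real.log a := by rwa [one_lt_div hla]
      obtain ⟨n1, hn1⟩ := ((hf1.eventually (gt_mem_nhds hr1)).and
        (hf.eventually_gt_atTop 0)).exists_forall_of_atTop
      obtain ⟨u, v, hu, huv, hbad⟩ := hB (max m (a ^ f n1))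
      obtain ⟨y, hy1, hy2⟩ := exists_between huv
      have hy0 : 1 ≤ a ^ f n1 := Real.one_le_rpow ha1.le (hn1 n1 le_rfl).2.le
      have hya : a ^ f n1 < y := lt_of_le_of_lt ((le_max_right _ _).trans hu) hy1
      have hypos : 0 < y := by linarith
      -- the least index at which `b ^ f n` exceeds `y`
      have hex : ∃ n : ℕ, n1 ≤ n ∧ y < b ^ f n := by
        have h1 : Tendsto (fun n => f n * Real.log b) atTop atTop :=
          hf.atTop_mul_const (by linarith)
        obtain ⟨n, hn, hn'⟩ := ((h1.eventually_gt_atTop (Real.log y)).and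
          (eventually_ge_atTop n1)).exists
        refine ⟨n, hn', ?_⟩
        rw [Real.rpow_def_of_pos hb0, ← Real.log_lt_iff_lt_exp hypos]
        linarith
      classical
      obtain ⟨hn2, hn3⟩ := Nat.find_spec hex
      set n := Nat.find hex with hn
      have hlow : a ^ f n < y := by
        rcases Nat.eq_or_lt_of_le hn2 with h | h
        · rw [← h]; exact hya
        · have h1 : ¬ (n1 ≤ n - 1 ∧ y < b ^ f (n - 1)) := Nat.find_min hex (by omega)
          have h2 : b ^ f (n - 1) ≤ y := by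
            by_contra h3
            exact h1 ⟨by omega, not_le.1 h3⟩
          refine lt_of_lt_of_le ?_ h2
          have h3 := hn1 (n - 1) (by omega)
          have h4 : n - 1 + 1 = n := by omega
          rw [h4] at h3
          rw [Real.rpow_def_of_pos ha0, Real.rpow_def_of_pos hb0, Real.exp_lt_exp]
          have h5 := h3.1
          rw [div_lt_div_iff₀ h3.2 hla] at h5
          linarith
      have hfn : 0 < f n := (hn1 n hn2).2
      refine ⟨y ^ (1 / f n), hsub _ ?_ ?_, Or.inr ⟨?_, u, v, (le_max_left _ _).trans hu, hbad, n, ?_, ?_⟩⟩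
      · rw [← Real.rpow_lt_rpow_iff ha0.le (by positivity) hfn, ← Real.rpow_mul hypos.le,
          one_div_mul_cancel hfn.ne', Real.rpow_one]
        exact hlow
      · rw [← Real.rpow_lt_rpow_iff (by positivity) hb0.le hfn, ← Real.rpow_mul hypos.le,
          one_div_mul_cancel hfn.ne', Real.rpow_one]
        exact hn3
      · exact Real.one_lt_rpow (by linarith) (by positivity)
      · rw [← Real.rpow_mul hypos.le, one_div_mul_cancel hfn.ne', Real.rpow_one]
        exact hy1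
      · rw [← Real.rpow_mul hypos.le, one_div_mul_cancel hfn.ne', Real.rpow_one]
        exact hy2
  have hall := eventually_countable_forall.2 hV
  filter_upwards [hall] with α hα hα1
  rw [frequently_atTop]
  intro N
  obtain ⟨m, hm⟩ := exists_nat_ge (∑ n ∈ Finset.range N, α ^ f n)
  rcases hα m with h | ⟨-, u, v, hu, hbad, n, h1, h2⟩
  · exact absurd h (by simpa using hα1.le)
  · refine ⟨n, ?_, hbad _ h1 h2⟩
    by_contra hn
    have h3 : α ^ f n ≤ ∑ n ∈ Finset.range N, α ^ f n :=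
      Finset.single_le_sum (f := fun n => α ^ f n)
        (fun i _ => Real.rpow_nonneg (by linarith) _) (Finset.mem_range.2 (not_le.1 hn))
    linarith

lemma density_nonneg {x H : ℝ} (hx : 1 ≤ x) (hH : 0 ≤ H) : 0 ≤ density x H := by
  unfold density
  have := primesIn_nonneg x H
  have := Real.log_nonneg hx
  positivity

lemma ev_len {ε δ : ℝ} (hε : 0 < ε) (hδ : 0 < δ) :
    ∀ᶠ x : ℝ in atTop, (3 * x) ^ (ε / 2) + 1 ≤ δ / 8 * x ^ ε := by
  have h1 : Tendsto (fun x : ℝ => x ^ (ε / 2)) atTop atTop := tendsto_rpow_atTop (by positivity)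
  filter_upwards [h1.eventually_ge_atTop (max 1 (8 / δ * ((3 : ℝ) ^ (ε / 2) + 1))), eventually_gt_atTop 0]
    with x hx hx0
  have h2 : 1 ≤ x ^ (ε / 2) := (le_max_left _ _).trans hx
  have h3 : 8 / δ * ((3 : ℝ) ^ (ε / 2) + 1) ≤ x ^ (ε / 2) := (le_max_right _ _).trans hx
  have h4 : x ^ ε = x ^ (ε / 2) * x ^ (ε / 2) := by
    rw [← Real.rpow_add hx0]
    congr 1
    ring
  have h5 : (3 : ℝ) ^ (ε / 2) + 1 ≤ δ / 8 * x ^ (ε / 2) := by
    have h6 := mul_le_mul_of_nonneg_left h3 (by positivity : 0 ≤ δ / 8)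
    calc (3 : ℝ) ^ (ε / 2) + 1 = δ / 8 * (8 / δ * ((3 : ℝ) ^ (ε / 2) + 1)) := by field_simp
      _ ≤ _ := h6
  rw [Real.mul_rpow (by norm_num) hx0.le, h4]
  calc (3 : ℝ) ^ (ε / 2) * x ^ (ε / 2) + 1 ≤ (3 : ℝ) ^ (ε / 2) * x ^ (ε / 2) + x ^ (ε / 2) := by linarith
    _ = ((3 : ℝ) ^ (ε / 2) + 1) * x ^ (ε / 2) := by ring
    _ ≤ δ / 8 * x ^ (ε / 2) * x ^ (ε / 2) := mul_le_mul_of_nonneg_right h5 (by linarith)
    _ = _ := by ring

lemma ev_log {δ : ℝ} (hδ : 0 < δ) :
    ∀ᶠ x : ℝ in atTop, 0 < Real.log x ∧ Real.log (3 * x) ≤ (1 + δ / 16) * Real.log x := by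
  filter_upwards [Real.tendsto_log_atTop.eventually_ge_atTop (max 1 (16 / δ * Real.log 3)),
    eventually_gt_atTop 0] with x hx hx0
  have h1 : 1 ≤ Real.log x := (le_max_left _ _).trans hx
  have h2 : 16 / δ * Real.log 3 ≤ Real.log x := (le_max_right _ _).trans hx
  refine ⟨by linarith, ?_⟩
  rw [Real.log_mul (by norm_num) hx0.ne']
  have h3 : Real.log 3 ≤ δ / 16 * Real.log x := by
    have h6 := mul_le_mul_of_nonneg_left h2 (by positivity : 0 ≤ δ / 16)
    calc Real.log 3 = δ / 16 * (16 / δ * Real.log 3) := by field_simp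
      _ ≤ _ := h6
  linarith

lemma bad_low {ε δ : ℝ} (hε : 0 < ε) (hδ : 0 < δ)
    (h : ∃ᶠ x : ℝ in atTop, ∃ H : ℝ, x ^ ε ≤ H ∧ H ≤ x ∧ density x H < 1 - δ) (X : ℝ) :
    ∃ u v : ℝ, X ≤ u ∧ u < v ∧ ∀ y : ℝ, u < y → y < v →
      ∀ k : ℝ, 1 ≤ k → k ≤ y ^ (ε / 2) → density y k < 1 - δ / 4 := by
  obtain ⟨x, ⟨H, hH1, hH2, hd⟩, ⟨hx, hlen⟩, hl0, hl1⟩ :=
    (h.and_eventually (((eventually_ge_atTop (max X 2)).and (ev_len hε hδ)).and (ev_log hδ))).exists
  have hX : X ≤ x := (le_max_left _ _).trans hx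
  have hx2 : 2 ≤ x := (le_max_right _ _).trans hx
  have hxε : 0 < x ^ ε := Real.rpow_pos_of_pos (by linarith) _
  have hH0 : 0 < H := by linarith
  have hδ1 : δ < 1 := by
    have := density_nonneg (x := x) (H := H) (by linarith) hH0.le
    linarith
  obtain ⟨L, hL⟩ : ∃ L, L = (3 * x) ^ (ε / 2) + 1 := ⟨_, rfl⟩
  have hL1 : 1 ≤ L := by
    have : 0 ≤ (3 * x) ^ (ε / 2) := Real.rpow_nonneg (by linarith) _
    linarith
  have hLH : L ≤ δ / 8 * H := by
    rw [hL]
    exact hlen.trans (mul_le_mul_of_nonneg_left hH1 (by positivity))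
  obtain ⟨c, hc⟩ : ∃ c, c = (1 - δ / 2) / Real.log x := ⟨_, rfl⟩
  have hc0 : 0 < c := by
    rw [hc]
    apply div_pos _ hl0
    linarith
  have hcl : c * Real.log x = 1 - δ / 2 := by rw [hc]; field_simp
  have hprim : primesIn x H < c * (H - L) := by
    have h1 : primesIn x H * Real.log x < (1 - δ) * H := by
      have h2 := hd
      unfold density at h2
      rwa [div_lt_iff₀ hH0] at h2
    have h3 : (1 - δ) * H ≤ c * (H - L) * Real.log x := by
      have e : c * (H - L) * Real.log x = (1 - δ / 2) * (H - L) := by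
        rw [← hcl]; ring
      rw [e]
      have h4 : (1 - δ / 2) * (H - δ / 8 * H) ≤ (1 - δ / 2) * (H - L) :=
        mul_le_mul_of_nonneg_left (by linarith) (by linarith)
      have h5 : (1 - δ) * H ≤ (1 - δ / 2) * (H - δ / 8 * H) := by
        have : (1 - δ / 2) * (H - δ / 8 * H) - (1 - δ) * H = (3 * δ / 8 + δ ^ 2 / 16) * H := by ring
        have : 0 ≤ (3 * δ / 8 + δ ^ 2 / 16) * H := by positivity
        linarith
      linarith
    exact lt_of_mul_lt_mul_right (h1.trans_le h3) hl0.le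
  obtain ⟨y, hy1, hy2, hy3⟩ := low_point hc0.le (by linarith) (by nlinarith) hprim
  refine ⟨y, y + δ / 16, by linarith, by linarith, fun z hz1 hz2 k hk1 hk2 => ?_⟩
  have hz3 : z ≤ 3 * x := by linarith
  have hz0 : 1 < z := by linarith
  have hkL : k + δ / 16 ≤ L := by
    have h1 : z ^ (ε / 2) ≤ (3 * x) ^ (ε / 2) := Real.rpow_le_rpow (by linarith) hz3 (by positivity)
    linarith
  have h1 : primesIn z k ≤ primesIn y (k + δ / 16) := primesIn_mono hz1.le (by linarith)
  have h2 := hy3 (k + δ / 16) (by linarith) hkL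
  have h3 : c * (k + δ / 16) ≤ c * ((1 + δ / 16) * k) := by
    apply mul_le_mul_of_nonneg_left _ hc0.le
    nlinarith
  have hlz : Real.log z ≤ (1 + δ / 16) * Real.log x := (Real.log_le_log (by linarith) hz3).trans hl1
  have hlz0 : 0 < Real.log z := Real.log_pos hz0
  unfold density
  rw [div_lt_iff₀ (by linarith)]
  have hk0 : 0 ≤ c * ((1 + δ / 16) * k) := by positivity
  calc primesIn z k * Real.log z < c * ((1 + δ / 16) * k) * Real.log z :=
        mul_lt_mul_of_pos_right (by linarith) hlz0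
    _ ≤ c * ((1 + δ / 16) * k) * ((1 + δ / 16) * Real.log x) := mul_le_mul_of_nonneg_left hlz hk0
    _ = (c * Real.log x) * (1 + δ / 16) ^ 2 * k := by ring
    _ = (1 - δ / 2) * (1 + δ / 16) ^ 2 * k := by rw [hcl]
    _ ≤ (1 - δ / 4) * k := by
      apply mul_le_mul_of_nonneg_right _ (by linarith)
      have e : (1 - δ / 4) - (1 - δ / 2) * (1 + δ / 16) ^ 2 = δ * (1 / 8 + 15 / 256 * δ + δ ^ 2 / 512) := by ring
      have : 0 ≤ δ * (1 / 8 + 15 / 256 * δ + δ ^ 2 / 512) := by positivity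
      linarith

lemma bad_high {ε δ : ℝ} (hε : 0 < ε) (hδ : 0 < δ) (hδ1 : δ ≤ 1)
    (h : ∃ᶠ x : ℝ in atTop, ∃ H : ℝ, x ^ ε ≤ H ∧ H ≤ x ∧ 1 + δ < density x H) (X : ℝ) :
    ∃ u v : ℝ, X ≤ u ∧ u < v ∧ ∀ y : ℝ, u < y → y < v →
      ∀ k : ℝ, 1 ≤ k → k ≤ y ^ (ε / 2) → 1 + δ / 4 < density y k := by
  have hsm : ∀ᶠ x : ℝ in atTop, (1 - δ / 16) * Real.log x ≤ Real.log (x - 1) := by
    filter_upwards [Real.tendsto_log_atTop.eventually_ge_atTop (max 1 (16 / δ * Real.log 2)),
      eventually_ge_atTop 2] with x hx hx2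
    have h2 : 16 / δ * Real.log 2 ≤ Real.log x := (le_max_right _ _).trans hx
    have h3 : Real.log 2 ≤ δ / 16 * Real.log x := by
      have h6 := mul_le_mul_of_nonneg_left h2 (by positivity : 0 ≤ δ / 16)
      calc Real.log 2 = δ / 16 * (16 / δ * Real.log 2) := by field_simp
        _ ≤ _ := h6
    have h4 : Real.log (x / 2) ≤ Real.log (x - 1) := Real.log_le_log (by linarith) (by linarith)
    rw [Real.log_div (by linarith) (by norm_num)] at h4
    linarith
  obtain ⟨x, ⟨H, hH1, hH2, hd⟩, ⟨hx, hlen⟩, ⟨hl0, -⟩, hl1⟩ :=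
    (h.and_eventually (((eventually_ge_atTop (max (X + 1) 4)).and (ev_len hε hδ)).and
      ((ev_log hδ).and hsm))).exists
  have hX : X + 1 ≤ x := (le_max_left _ _).trans hx
  have hx2 : 4 ≤ x := (le_max_right _ _).trans hx
  have hxε : 0 < x ^ ε := Real.rpow_pos_of_pos (by linarith) _
  have hH0 : 0 < H := by linarith
  obtain ⟨L, hL⟩ : ∃ L, L = (3 * x) ^ (ε / 2) + 1 := ⟨_, rfl⟩
  have hL1 : 1 ≤ L := by
    have : 0 ≤ (3 * x) ^ (ε / 2) := Real.rpow_nonneg (by linarith) _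
    linarith
  have hLH : L ≤ δ / 8 * H := by
    rw [hL]
    exact hlen.trans (mul_le_mul_of_nonneg_left hH1 (by positivity))
  obtain ⟨c, hc⟩ : ∃ c, c = (1 + δ / 2) / Real.log x := ⟨_, rfl⟩
  have hc0 : 0 < c := by
    rw [hc]
    apply div_pos _ hl0
    linarith
  have hcl : c * Real.log x = 1 + δ / 2 := by rw [hc]; field_simp
  have hprim : c * (H + L) < primesIn x H := by
    have h1 : (1 + δ) * H < primesIn x H * Real.log x := by
      have h2 := hd
      unfold density at h2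
      rwa [lt_div_iff₀ hH0] at h2
    have h3 : c * (H + L) * Real.log x ≤ (1 + δ) * H := by
      have e : c * (H + L) * Real.log x = (1 + δ / 2) * (H + L) := by
        rw [← hcl]; ring
      rw [e]
      have h4 : (1 + δ / 2) * (H + L) ≤ (1 + δ / 2) * (H + δ / 8 * H) :=
        mul_le_mul_of_nonneg_left (by linarith) (by linarith)
      have h5 : (1 + δ / 2) * (H + δ / 8 * H) ≤ (1 + δ) * H := by
        have e2 : (1 + δ) * H - (1 + δ / 2) * (H + δ / 8 * H) = δ / 16 * (6 - δ) * H := by ring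
        have : 0 ≤ δ / 16 * (6 - δ) * H := by
          apply mul_nonneg (mul_nonneg (by positivity) (by linarith)) hH0.le
        linarith
      linarith
    exact lt_of_mul_lt_mul_right (h3.trans_lt h1) hl0.le
  obtain ⟨y, hy1, hy2, hy3⟩ := high_point hc0.le (by linarith) hH0.le hprim
  refine ⟨y - δ / 16, y, by linarith, by linarith, fun z hz1 hz2 k hk1 hk2 => ?_⟩
  have hz3 : z ≤ 3 * x := by linarith
  have hz0 : 1 < z := by linarith
  have hkL : k ≤ L := by
    have h1 : z ^ (ε / 2) ≤ (3 * x) ^ (ε / 2) := Real.rpow_le_rpow (by linarith) hz3 (by positivity)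
    linarith
  have h1 : primesIn y (k - (y - z)) ≤ primesIn z k := primesIn_mono hz2.le (by linarith)
  have h2 := hy3 (k - (y - z)) (by linarith) (by linarith)
  have h3 : c * ((1 - δ / 16) * k) ≤ c * (k - (y - z)) := by
    apply mul_le_mul_of_nonneg_left _ hc0.le
    nlinarith
  have hlz : (1 - δ / 16) * Real.log x ≤ Real.log z :=
    hl1.trans (Real.log_le_log (by linarith) (by linarith))
  have hlz0 : 0 < Real.log z := Real.log_pos hz0
  unfold density
  rw [lt_div_iff₀ (by linarith)]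
  have hk0 : 0 ≤ c * ((1 - δ / 16) * k) := by
    have : 0 ≤ 1 - δ / 16 := by linarith
    positivity
  calc (1 + δ / 4) * k ≤ (1 + δ / 2) * (1 - δ / 16) ^ 2 * k := by
        apply mul_le_mul_of_nonneg_right _ (by linarith)
        have e : (1 + δ / 2) * (1 - δ / 16) ^ 2 - (1 + δ / 4) = δ * (1 / 8 - 15 / 256 * δ + δ ^ 2 / 512) := by ring
        have : 0 ≤ δ * (1 / 8 - 15 / 256 * δ + δ ^ 2 / 512) := by
          apply mul_nonneg hδ.le
          nlinarith
        linarith
    _ = (c * Real.log x) * (1 - δ / 16) ^ 2 * k := by rw [hcl]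
    _ = c * ((1 - δ / 16) * k) * ((1 - δ / 16) * Real.log x) := by ring
    _ ≤ c * ((1 - δ / 16) * k) * Real.log z := mul_le_mul_of_nonneg_left hlz hk0
    _ < primesIn z k * Real.log z := mul_lt_mul_of_pos_right (by linarith) hlz0

/-- if the assertion of Q1 fails, then for all `α > 1` outside a meagre set, for infinitely many `n` all
lengths `h` in `[1, x ^ ε]` are bad at `x = α ^ f n`, on the same side -/
theorem failure {f : ℕ → ℝ} (hf : Tendsto f atTop atTop)
    (hf1 : Tendsto (fun n => f (n + 1) / f n) atTop (𝓝 1)) (hne : ¬ ShortIntervals) :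
    ∃ ε δ : ℝ, 0 < ε ∧ 0 < δ ∧
      ((∀ᶠ α : ℝ in residual ℝ, 1 < α → ∃ᶠ n : ℕ in atTop,
          ∀ h : ℝ, 1 ≤ h → h ≤ (α ^ f n) ^ ε → density (α ^ f n) h < 1 - δ) ∨
        ∀ᶠ α : ℝ in residual ℝ, 1 < α → ∃ᶠ n : ℕ in atTop,
          ∀ h : ℝ, 1 ≤ h → h ≤ (α ^ f n) ^ ε → 1 + δ < density (α ^ f n) h) := by
  unfold ShortIntervals at hne
  push Not at hne
  obtain ⟨ε, hε, δ, hδ, hfr⟩ := hne
  have h2 : (∃ᶠ x : ℝ in atTop, ∃ H : ℝ, x ^ ε ≤ H ∧ H ≤ x ∧ density x H < 1 - δ) ∨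
      ∃ᶠ x : ℝ in atTop, ∃ H : ℝ, x ^ ε ≤ H ∧ H ≤ x ∧ 1 + min δ 1 < density x H := by
    rw [← frequently_or_distrib]
    refine hfr.mono ?_
    rintro x ⟨H, h1, h2, h3⟩
    rcases lt_abs.1 h3 with h4 | h4
    · right
      refine ⟨H, h1, h2, ?_⟩
      have := min_le_left δ 1
      linarith
    · left
      exact ⟨H, h1, h2, by linarith⟩
  rcases h2 with h3 | h3
  · refine ⟨ε / 2, δ / 4, by positivity, by positivity, Or.inl ?_⟩
    exact baire hf hf1 (fun y => ∀ k : ℝ, 1 ≤ k → k ≤ y ^ (ε / 2) → density y k < 1 - δ / 4) (bad_low hε hδ h3)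
  · have hm : 0 < min δ 1 := lt_min hδ one_pos
    refine ⟨ε / 2, min δ 1 / 4, by positivity, by positivity, Or.inr ?_⟩
    exact baire hf hf1 (fun y => ∀ k : ℝ, 1 ≤ k → k ≤ y ^ (ε / 2) → 1 + min δ 1 / 4 < density y k)
      (bad_high hε hm (min_le_right _ _) h3)

/-- **Q1 can be tested on sparse sequences, with one length for each direction.** Let `f n → ∞` and
`f (n + 1) / f n → 1`. The assertion of Q1 holds if and only if for all `ε, δ > 0` and ALL `α > 1` the points
`α ^ f n` satisfy `OneLength`, if and only if for all `ε, δ > 0` this holds for the `α` in a set which is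
not meagre. -/
theorem result (f : ℕ → ℝ) (hf : Tendsto f atTop atTop)
    (hf1 : Tendsto (fun n => f (n + 1) / f n) atTop (𝓝 1)) :
    (ShortIntervals ↔ ∀ ε : ℝ, 0 < ε → ∀ δ : ℝ, 0 < δ → ∀ α : ℝ, 1 < α → OneLength f ε δ α) ∧
    (ShortIntervals ↔ ∀ ε : ℝ, 0 < ε → ∀ δ : ℝ, 0 < δ → ¬ IsMeagre {α : ℝ | 1 < α ∧ OneLength f ε δ α}) := by
  have h1 : ShortIntervals → ∀ ε : ℝ, 0 < ε → ∀ δ : ℝ, 0 < δ → ∀ α : ℝ, 1 < α → OneLength f ε δ α := by
    intro h ε hε δ hδ α hα
    have hm : 0 < min ε 1 := lt_min hε one_pos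
    have hlim : Tendsto (fun n => α ^ f n) atTop atTop := by
      have e : (fun n => α ^ f n) = fun n => Real.exp (f n * Real.log α) := by
        funext n
        rw [Real.rpow_def_of_pos (by linarith), mul_comm]
      rw [e]
      exact Real.tendsto_exp_atTop.comp (hf.atTop_mul_const (Real.log_pos hα))
    filter_upwards [hlim.eventually (h (min ε 1) hm δ hδ), hlim.eventually_ge_atTop 1] with n hn hn1
    have h2 : 1 ≤ (α ^ f n) ^ (min ε 1) := Real.one_le_rpow hn1 hm.le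
    have h3 : (α ^ f n) ^ (min ε 1) ≤ α ^ f n := by
      calc (α ^ f n) ^ (min ε 1) ≤ (α ^ f n) ^ (1 : ℝ) := Real.rpow_le_rpow_of_exponent_le hn1 (min_le_right _ _)
        _ = _ := Real.rpow_one _
    have h4 : (α ^ f n) ^ (min ε 1) ≤ (α ^ f n) ^ ε := Real.rpow_le_rpow_of_exponent_le hn1 (min_le_left _ _)
    have h5 := abs_le.1 (hn _ le_rfl h3)
    exact ⟨⟨_, h2, h4, by linarith [h5.1]⟩, ⟨_, h2, h4, by linarith [h5.2]⟩⟩
  have h2 : (∀ ε : ℝ, 0 < ε → ∀ δ : ℝ, 0 < δ → ∀ α : ℝ, 1 < α → OneLength f ε δ α) →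
      ∀ ε : ℝ, 0 < ε → ∀ δ : ℝ, 0 < δ → ¬ IsMeagre {α : ℝ | 1 < α ∧ OneLength f ε δ α} := by
    intro h ε hε δ hδ
    have e : {α : ℝ | 1 < α ∧ OneLength f ε δ α} = Ioi 1 := by
      ext α
      exact ⟨fun h => h.1, fun h' => ⟨h', h ε hε δ hδ α h'⟩⟩
    rw [e]
    exact not_isMeagre_of_isOpen isOpen_Ioi ⟨2, by norm_num⟩
  have h3 : (∀ ε : ℝ, 0 < ε → ∀ δ : ℝ, 0 < δ → ¬ IsMeagre {α : ℝ | 1 < α ∧ OneLength f ε δ α}) →
      ShortIntervals := by
    intro h
    by_contra hne
    obtain ⟨ε, δ, hε, hδ, hor⟩ := failure hf hf1 hne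
    apply h ε hε δ hδ
    unfold IsMeagre
    rcases hor with h4 | h4
    · filter_upwards [h4] with α hα hα2
      obtain ⟨n, hn1, ⟨k, hk1, hk2, hk3⟩, -⟩ := ((hα hα2.1).and_eventually hα2.2).exists
      have := hn1 k hk1 hk2
      linarith
    · filter_upwards [h4] with α hα hα2
      obtain ⟨n, hn1, -, k, hk1, hk2, hk3⟩ := ((hα hα2.1).and_eventually hα2.2).exists
      have := hn1 k hk1 hk2
      linarith
  exact ⟨⟨h1, fun h => h3 (h2 h)⟩, ⟨fun h => h2 (h1 h), h3⟩⟩

end Pool.Agent.Results.MP_31d0eb_nt.SparseTestSequences
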