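import Pool.Agent.K4H50.VS.A4

/-!
# Dilations by very small integers

There is an absolute constant `δ₀ > 0` with the following property. Let `P ≥ exp ((log X) ^ (1 - δ₀))` (so `P` may be smaller
than every fixed power of `X`) and let `A` be an arbitrary set of integers in `[β P, P]` with at least `δ P` elements. Then for
every real `y` in `(0, X / P]` outside at most `δ X / log X` intervals of length `log X / P` the following holds for ALL lengths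
`H` with `λ log X ≤ H ≤ X ^ (1 - ρ)` simultaneously: the intervals `(x - H, x)`, `x = a y`, contain `(1 + O(δ)) H / log x`
primes on average over `a ∈ A`, and a positive proportion of them contains at least `(1 - δ) H / log x` primes. Moreover,
boundedly many of these small dilations suffice: for all but `δ |A| ^ n` of the `n`-tuples of elements of `A` the asymptotic
formula holds on average over the `n` intervals `(a_j y - H, a_j y)`, for all these lengths `H` at once and for all real `y`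
outside at most `δ X / log X` intervals of length `log X / P`; here `n ≥ n₀` is independent of `X` and of `P`.
-/

set_option autoImplicit false

namespace Pool.Agent.Results.MP_31d0eb_nt.VeryShortDilations

open Finset

/-- the number of primes in the open interval `(x - H, x)`, divided by its expected value `H / log x` -/
noncomputable def density (H x : ℝ) : ℝ :=
  (Set.ncard {p : ℕ | p.Prime ∧ x - H < p ∧ (p : ℝ) < x} : ℝ) * Real.log x / H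

open Classical in
theorem result : ∃ δ₀ : ℝ, 0 < δ₀ ∧ ∀ (lam ρ β δ : ℝ), 0 < lam → 0 < ρ → 0 < β → 0 < δ →
    ∃ (n₀ : ℕ) (κ : ℝ), 0 < κ ∧ ∀ n : ℕ, n₀ ≤ n → ∃ X₀ : ℝ, ∀ X P : ℝ, X₀ ≤ X → Real.exp (Real.log X ^ (1 - δ₀)) ≤ P →
    ∀ A : Finset ℕ, (∀ a ∈ A, β * P ≤ (a : ℝ) ∧ (a : ℝ) ≤ P) → δ * P ≤ A.card →
      -- the average over the whole set, for all lengths at once
      (∃ U : Finset ℝ, (U.card : ℝ) ≤ δ * (X / Real.log X) ∧ ∀ y : ℝ, 0 < y → y ≤ X / P →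
        (∀ u ∈ U, ¬ (u ≤ y ∧ y ≤ u + Real.log X / P)) →
        ∀ H : ℝ, lam * Real.log X ≤ H → H ≤ X ^ (1 - ρ) →
          |∑ a ∈ A, density H (a * y) - A.card| ≤ δ * A.card ∧
          κ * A.card ≤ ((A.filter (fun a : ℕ => 1 - δ ≤ density H (a * y))).card : ℝ)) ∧
      -- the average over almost every `n`-tuple, for all lengths at once
      (((Fintype.piFinset (fun _ : Fin n => A)).filter (fun a => ¬ ∃ U : Finset ℝ, (U.card : ℝ) ≤ δ * (X / Real.log X) ∧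
        ∀ y : ℝ, 0 < y → y ≤ X / P → (∀ u ∈ U, ¬ (u ≤ y ∧ y ≤ u + Real.log X / P)) →
        ∀ H : ℝ, lam * Real.log X ≤ H → H ≤ X ^ (1 - ρ) →
          |∑ j, density H (a j * y) - n| ≤ δ * n)).card : ℝ) ≤ δ * (A.card : ℝ) ^ n := by
  have hden : ∀ H x : ℝ, density H x = Pool.Agent.Y851.PT.ZH H x := fun H x => (Pool.Agent.Y851.PT.ZH_eq H x).symm
  simp_rw [hden]
  obtain ⟨δ₀, hδ₀, hcutP⟩ := Pool.Agent.K4H50.VS.cutU
  refine ⟨min δ₀ (1 / 2), lt_min hδ₀ (by norm_num), fun lam ρ β δ hlam hρ hβ hδ => ?_⟩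
  obtain ⟨δm, hδm⟩ : ∃ δm, δm = min δ₀ (1 / 2) := ⟨_, rfl⟩
  have hδm1 : δm ≤ δ₀ := by rw [hδm]; exact min_le_left _ _
  have hδm2 : δm ≤ 1 / 2 := by rw [hδm]; exact min_le_right _ _
  rw [← hδm]
  obtain ⟨δ₁, hδ₁⟩ : ∃ δ₁, δ₁ = min δ 1 := ⟨_, rfl⟩
  have hδ₁0 : 0 < δ₁ := by rw [hδ₁]; exact lt_min hδ one_pos
  have hδ₁1 : δ₁ ≤ δ := by rw [hδ₁]; exact min_le_left _ _
  have hδ₁2 : δ₁ ≤ 1 := by rw [hδ₁]; exact min_le_right _ _
  obtain ⟨β₁, hβ₁⟩ : ∃ β₁, β₁ = min β 1 := ⟨_, rfl⟩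
  have hβ₁0 : 0 < β₁ := by rw [hβ₁]; exact lt_min hβ one_pos
  have hβ₁1 : β₁ ≤ β := by rw [hβ₁]; exact min_le_left _ _
  have hβ₁2 : β₁ ≤ 1 := by rw [hβ₁]; exact min_le_right _ _
  obtain ⟨ρ₁, hρ₁⟩ : ∃ ρ₁, ρ₁ = min ρ 1 := ⟨_, rfl⟩
  have hρ₁0 : 0 < ρ₁ := by rw [hρ₁]; exact lt_min hρ one_pos
  have hρ₁1 : ρ₁ ≤ ρ := by rw [hρ₁]; exact min_le_left _ _
  have hρ₁2 : ρ₁ ≤ 1 := by rw [hρ₁]; exact min_le_right _ _
  obtain ⟨κ, hκ, hA⟩ := Pool.Agent.K4H50.VS.unifAU δ₀ hcutP lam ρ₁ β₁ δ₁ hlam hρ₁0 hρ₁2 hβ₁0 hβ₁2 hδ₁0 hδ₁2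
  obtain ⟨n₀, hn₀, hB⟩ := Pool.Agent.K4H50.VS.unifBU δ₀ hcutP lam ρ₁ β₁ δ₁ hlam hρ₁0 hρ₁2 hβ₁0 hβ₁2 hδ₁0 hδ₁2
  refine ⟨n₀, κ, hκ, fun n hn => ?_⟩
  -- the size of `P`
  have hPbig : ∀ᶠ X : ℝ in Filter.atTop, 1 / β ≤ Real.exp (Real.log X ^ (1 - δm)) :=
    (Real.tendsto_exp_atTop.comp ((tendsto_rpow_atTop (show 0 < 1 - δm by linarith)).comp
      Real.tendsto_log_atTop)).eventually_ge_atTop _
  obtain ⟨X₀, hX₀⟩ := Filter.eventually_atTop.1 ((hA.and (hB n hn)).and ((Filter.eventually_ge_atTop 3).and hPbig))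
  refine ⟨X₀, fun X P hX hP A hA1 hA2 => ?_⟩
  obtain ⟨⟨h1, h2⟩, h3, h4⟩ := hX₀ X hX
  have hX0 : 0 < X := by linarith only [h3]
  have hX1 : 1 < X := by linarith only [h3]
  have hlog1 : 1 ≤ Real.log X := by
    rw [Real.le_log_iff_exp_le hX0]
    have := Real.exp_one_lt_d9
    linarith only [this, h3]
  have hlog : 0 < Real.log X := by linarith only [hlog1]
  have hP0 : 0 < P := lt_of_lt_of_le (Real.exp_pos _) hP
  have hXH : 0 ≤ X / Real.log X := (div_pos hX0 hlog).le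
  have hρX : X ^ (1 - ρ) ≤ X ^ (1 - ρ₁) := Real.rpow_le_rpow_of_exponent_le hX1.le (by linarith only [hρ₁1])
  -- the exponent
  obtain ⟨θ, hθ⟩ : ∃ θ, θ = Real.log P / Real.log X := ⟨_, rfl⟩
  have hXθ : X ^ θ = P := by
    rw [Real.rpow_def_of_pos hX0, hθ, mul_div_cancel₀ _ hlog.ne', Real.exp_log hP0]
  have hX1θ : X ^ (1 - θ) = X / P := by
    rw [Real.rpow_sub hX0, Real.rpow_one, hXθ]
  have hθ0 : Real.log X ^ (-δ₀) ≤ θ := by
    have g1 : Real.log X ^ (1 - δm) ≤ Real.log P := by rwa [Real.le_log_iff_exp_le hP0]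
    have g2 : Real.log X ^ (-δm) * Real.log X = Real.log X ^ (1 - δm) := by
      rw [← Real.rpow_add_one hlog.ne']
      congr 1; ring
    have g3 : Real.log X ^ (-δ₀) ≤ Real.log X ^ (-δm) := Real.rpow_le_rpow_of_exponent_le hlog1 (by linarith only [hδm1])
    rw [hθ, le_div_iff₀ hlog]
    refine le_trans (mul_le_mul_of_nonneg_right g3 hlog.le) ?_
    rw [g2]; exact g1
  have h1 := h1 θ hθ0
  have h2 := h2 θ hθ0
  rw [hXθ, hX1θ] at h1 h2
  have hadm : Pool.Agent.K4H50.VS.AdmI δ₁ θ X A := by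
    unfold Pool.Agent.K4H50.VS.AdmI
    rw [hXθ]
    refine ⟨fun a ha => ⟨?_, (hA1 a ha).2⟩, (mul_le_mul_of_nonneg_right hδ₁1 hP0.le).trans hA2⟩
    have g1 : 1 / β ≤ P := h4.trans hP
    rw [div_le_iff₀ hβ] at g1
    have g2 : β * P ≤ a := (hA1 a ha).1
    have : (1 : ℝ) ≤ a := by linarith only [g1, g2]
    exact_mod_cast this
  have hβA : ∀ a ∈ A, β₁ * P ≤ (a : ℝ) := fun a ha => (mul_le_mul_of_nonneg_right hβ₁1 hP0.le).trans (hA1 a ha).1
  obtain ⟨U, hU1, hU2⟩ := h1 A hadm hβA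
  refine ⟨⟨U, hU1.trans (mul_le_mul_of_nonneg_right hδ₁1 hXH), fun y hy0 hy1 hyU H hH1 hH2 => ?_⟩, ?_⟩
  · obtain ⟨g1, g2⟩ := hU2 y hy0 hy1 hyU H hH1 (hH2.trans hρX)
    refine ⟨g1.trans (mul_le_mul_of_nonneg_right hδ₁1 (Nat.cast_nonneg _)), g2.trans ?_⟩
    apply Nat.cast_le.2
    apply card_le_card
    intro a ha
    rw [mem_filter] at ha ⊢
    exact ⟨ha.1, by linarith only [ha.2, hδ₁1]⟩
  · refine le_trans ?_ ((h2 A hadm hβA).trans (mul_le_mul_of_nonneg_right hδ₁1 (pow_nonneg (Nat.cast_nonneg _) n)))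
    apply Nat.cast_le.2
    apply card_le_card
    intro a ha
    rw [mem_filter] at ha ⊢
    refine ⟨ha.1, fun hcon => ha.2 ?_⟩
    obtain ⟨U, hU1, hU2⟩ := hcon
    refine ⟨U, hU1.trans (mul_le_mul_of_nonneg_right hδ₁1 hXH), fun y hy0 hy1 hyU H hH1 hH2 => ?_⟩
    exact (hU2 y hy0 hy1 hyU H hH1 (hH2.trans hρX)).trans (mul_le_mul_of_nonneg_right hδ₁1 (Nat.cast_nonneg _))

end Pool.Agent.Results.MP_31d0eb_nt.VeryShortDilations
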